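import Pool.Agent.Lib_helper93.Mink.Farey

open MeasureTheory Set Filter
open scoped Topology ENNReal Real

namespace Pool.Agent.Lib_helper93.Mink

/-- The projection `θ ↦ (1 + cos θ)/2`. -/
noncomputable def pr (θ : ℝ) : ℝ := (1 + Real.cos θ) / 2

theorem continuous_pr : Continuous pr := by
  unfold pr
  fun_prop

theorem measurable_pr : Measurable pr := continuous_pr.measurable

/-- Arcsine measure. -/
noncomputable def arcsine : Measure ℝ :=
  Measure.map pr (ENNReal.ofReal (1 / (2 * π)) • volume.restrict (Ioc 0 (2 * π)))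

theorem arcsine_apply {s : Set ℝ} (hs : MeasurableSet s) :
    arcsine s = ENNReal.ofReal (1 / (2 * π)) * volume (pr ⁻¹' s ∩ Ioc 0 (2 * π)) := by
  unfold arcsine
  rw [Measure.map_apply measurable_pr hs, Measure.smul_apply,
    Measure.restrict_apply (measurable_pr hs), smul_eq_mul]

instance : IsProbabilityMeasure arcsine := by
  refine ⟨?_⟩
  rw [arcsine_apply MeasurableSet.univ]
  simp only [preimage_univ, univ_inter, Real.volume_Ioc, sub_zero]
  rw [← ENNReal.ofReal_mul (by positivity)]
  have : 1 / (2 * π) * (2 * π) = 1 := by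
    have := Real.pi_pos
    field_simp
  rw [this]
  simp

theorem pr_dist {s t : ℝ} (hs : 0 ≤ s) (hst : s ≤ t) (ht : t ≤ π) :
    (t - s) ^ 2 ≤ π ^ 2 * (pr s - pr t) := by
  have hpi := Real.pi_pos
  have h1 : pr s - pr t = Real.sin ((s + t) / 2) * Real.sin ((t - s) / 2) := by
    unfold pr
    have := Real.cos_sub_cos s t
    have h2 : Real.sin ((s - t) / 2) = -Real.sin ((t - s) / 2) := by
      rw [← Real.sin_neg]
      congr 1
      ring
    rw [h2] at this
    linarith
  have h3 : 2 / π * ((t - s) / 2) ≤ Real.sin ((t - s) / 2) :=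
    Real.mul_le_sin (by linarith) (by linarith)
  have h4 : Real.sin ((t - s) / 2) ≤ Real.sin ((s + t) / 2) := by
    rcases le_total ((s + t) / 2) (π / 2) with h | h
    · exact Real.sin_le_sin_of_le_of_le_pi_div_two (by linarith) h (by linarith)
    · rw [← Real.sin_pi_sub ((s + t) / 2)]
      exact Real.sin_le_sin_of_le_of_le_pi_div_two (by linarith) (by linarith) (by linarith)
  have h5 : 0 ≤ 2 / π * ((t - s) / 2) := by
    apply mul_nonneg (by positivity)
    linarith
  have h6 : (2 / π * ((t - s) / 2)) * (2 / π * ((t - s) / 2)) ≤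
      Real.sin ((s + t) / 2) * Real.sin ((t - s) / 2) := by
    apply mul_le_mul (h3.trans h4) h3 h5 (h5.trans (h3.trans h4))
  rw [h1]
  have h7 : (2 / π * ((t - s) / 2)) * (2 / π * ((t - s) / 2)) = (t - s) ^ 2 / π ^ 2 := by
    field_simp
  rw [h7, div_le_iff₀ (by positivity)] at h6
  linarith

theorem arc_diam {a b : ℝ} (S : Set ℝ) (hS : ∀ θ ∈ S, 0 ≤ θ ∧ θ ≤ π ∧ pr θ ∈ Icc a b) :
    volume S ≤ ENNReal.ofReal (π * Real.sqrt (b - a)) := by
  refine (Real.volume_le_diam S).trans ?_
  refine Metric.ediam_le fun s hs t ht => ?_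
  obtain ⟨s0, s1, s2⟩ := hS s hs
  obtain ⟨t0, t1, t2⟩ := hS t ht
  rw [edist_dist]
  apply ENNReal.ofReal_le_ofReal
  have key : ∀ u v : ℝ, 0 ≤ u → u ≤ v → v ≤ π → pr u ∈ Icc a b → pr v ∈ Icc a b →
      v - u ≤ π * Real.sqrt (b - a) := by
    intro u v hu huv hv h1 h2
    have h3 := pr_dist hu huv hv
    have h4 : pr u - pr v ≤ b - a := by linarith [h1.2, h2.1]
    have h5 : (v - u) ^ 2 ≤ π ^ 2 * (b - a) :=
      h3.trans (by gcongr)
    have h6 : v - u ≤ Real.sqrt (π ^ 2 * (b - a)) := Real.le_sqrt_of_sq_le h5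
    rwa [Real.sqrt_mul (by positivity), Real.sqrt_sq Real.pi_pos.le] at h6
  rw [Real.dist_eq]
  rcases le_total s t with h | h
  · rw [abs_of_nonpos (by linarith)]
    have := key s t s0 h t1 s2 t2
    linarith
  · rw [abs_of_nonneg (by linarith)]
    exact key t s t0 h s1 t2 s2

theorem arcsine_Icc (a b : ℝ) : arcsine (Icc a b) ≤ ENNReal.ofReal (Real.sqrt (b - a)) := by
  have hpi := Real.pi_pos
  rw [arcsine_apply measurableSet_Icc]
  have hsub : pr ⁻¹' Icc a b ∩ Ioc 0 (2 * π) ⊆
      (pr ⁻¹' Icc a b ∩ Icc 0 π) ∪ (fun θ => 2 * π - θ) ⁻¹' (pr ⁻¹' Icc a b ∩ Icc 0 π) := by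
    rintro θ ⟨h1, h2, h3⟩
    rcases le_total θ π with h | h
    · exact Or.inl ⟨h1, h2.le, h⟩
    · refine Or.inr ⟨?_, ?_, ?_⟩
      · rw [mem_preimage] at h1 ⊢
        have : pr (2 * π - θ) = pr θ := by
          unfold pr
          rw [Real.cos_two_pi_sub]
        rw [this]
        exact h1
      · change 0 ≤ 2 * π - θ
        linarith
      · change 2 * π - θ ≤ π
        linarith
  have h1 : volume (pr ⁻¹' Icc a b ∩ Icc 0 π) ≤ ENNReal.ofReal (π * Real.sqrt (b - a)) :=
    arc_diam _ fun θ hθ => ⟨hθ.2.1, hθ.2.2, hθ.1⟩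
  have h2 : volume ((fun θ => 2 * π - θ) ⁻¹' (pr ⁻¹' Icc a b ∩ Icc 0 π)) =
      volume (pr ⁻¹' Icc a b ∩ Icc 0 π) := by
    exact (Measure.measurePreserving_sub_left volume (2 * π)).measure_preimage
      ((measurable_pr measurableSet_Icc).inter measurableSet_Icc).nullMeasurableSet
  have h3 : volume (pr ⁻¹' Icc a b ∩ Ioc 0 (2 * π)) ≤
      ENNReal.ofReal (2 * π * Real.sqrt (b - a)) := by
    refine (measure_mono hsub).trans ((measure_union_le _ _).trans ?_)
    rw [h2]
    refine (add_le_add h1 h1).trans ?_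
    rw [← ENNReal.ofReal_add (by positivity) (by positivity)]
    apply ENNReal.ofReal_le_ofReal
    linarith
  calc ENNReal.ofReal (1 / (2 * π)) * volume (pr ⁻¹' Icc a b ∩ Ioc 0 (2 * π))
      ≤ ENNReal.ofReal (1 / (2 * π)) * ENNReal.ofReal (2 * π * Real.sqrt (b - a)) := by gcongr
    _ = ENNReal.ofReal (Real.sqrt (b - a)) := by
      rw [← ENNReal.ofReal_mul (by positivity)]
      congr 1
      field_simp

theorem arcsine_singleton (a : ℝ) : arcsine {a} = 0 := by
  have := arcsine_Icc a a
  simpa using this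

theorem arcsine_Ioc01 : arcsine (Ioc 0 1) = 1 := by
  have h1 : arcsine (Icc 0 1) = 1 := by
    rw [← prob_compl_eq_zero_iff measurableSet_Icc, arcsine_apply measurableSet_Icc.compl]
    have : pr ⁻¹' (Icc 0 1)ᶜ = ∅ := by
      rw [eq_empty_iff_forall_notMem]
      intro θ hθ
      apply hθ
      unfold pr
      constructor
      · have := Real.neg_one_le_cos θ
        linarith
      · have := Real.cos_le_one θ
        linarith
    rw [this]
    simp
  have h2 : Icc (0 : ℝ) 1 = {0} ∪ Ioc 0 1 := by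
    rw [singleton_union, Ioc_insert_left zero_le_one]
  refine le_antisymm prob_le_one ?_
  rw [← h1, h2]
  refine (measure_union_le _ _).trans ?_
  rw [arcsine_singleton, zero_add]

/-- The potential of the arcsine measure is `log 4` on `[0,1]`. -/
theorem arcsine_potential {z : ℝ} (hz : z ∈ Icc (0 : ℝ) 1) :
    ∫⁻ x, L z x ∂arcsine ≤ ENNReal.ofReal (Real.log 4) := by
  have hpi := Real.pi_pos
  obtain ⟨φ, hφ⟩ : ∃ φ, pr φ = z := by
    refine ⟨Real.arccos (2 * z - 1), ?_⟩
    unfold pr
    rw [Real.cos_arccos (by linarith [hz.1]) (by linarith [hz.2])]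
    ring
  set a : ℂ := circleMap 0 1 φ with ha
  set b : ℂ := circleMap 0 1 (-φ) with hb
  have han : ‖a‖ = 1 := by simp [ha]
  have hbn : ‖b‖ = 1 := by simp [hb]
  set R : ℝ → ℝ := fun θ => Real.log 4 - (Real.log ‖circleMap 0 1 θ - a‖ +
    Real.log ‖circleMap 0 1 θ - b‖) with hR
  have hle2 : ∀ c : ℂ, ‖c‖ = 1 → ∀ θ, Real.log ‖circleMap 0 1 θ - c‖ ≤ Real.log 2 := by
    intro c hc θ
    have h1 : ‖circleMap 0 1 θ - c‖ ≤ 2 := by
      refine (norm_sub_le _ _).trans ?_
      rw [hc]
      simp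
      norm_num
    rcases (norm_nonneg (circleMap 0 1 θ - c)).eq_or_lt with h | h
    · rw [← h]
      simp
      exact Real.log_nonneg (by norm_num)
    · exact Real.log_le_log h h1
  have hlog4 : Real.log 4 = Real.log 2 + Real.log 2 := by
    rw [← Real.log_mul (by norm_num) (by norm_num)]
    norm_num
  have hRnn : ∀ θ, 0 ≤ R θ := by
    intro θ
    have h1 := hle2 a han θ
    have h2 := hle2 b hbn θ
    rw [hR]
    simp only
    linarith
  have hprod : ∀ θ, ‖circleMap 0 1 θ - a‖ * ‖circleMap 0 1 θ - b‖ = 4 * |pr θ - z| := by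
    intro θ
    rw [← norm_mul]
    have : (circleMap 0 1 θ - a) * (circleMap 0 1 θ - b) =
        circleMap 0 1 θ * ((2 * (Real.cos θ - Real.cos φ) : ℝ) : ℂ) := by
      rw [ha, hb]
      simp only [circleMap, Complex.ofReal_one, one_mul, zero_add]
      push_cast
      rw [Complex.cos, Complex.cos, mul_sub, mul_sub, sub_mul]
      have e1 : Complex.exp (θ * Complex.I) * Complex.exp (-θ * Complex.I) = 1 := by
        rw [← Complex.exp_add]; simp
      have e2 : Complex.exp (φ * Complex.I) * Complex.exp (-φ * Complex.I) = 1 := by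
        rw [← Complex.exp_add]; simp
      linear_combination (-1 : ℂ) * e1 + e2
    rw [this, norm_mul, norm_circleMap_zero, abs_one, one_mul, Complex.norm_real, Real.norm_eq_abs,
      ← hφ]
    unfold pr
    rw [show (1 + Real.cos θ) / 2 - (1 + Real.cos φ) / 2 = (Real.cos θ - Real.cos φ) / 2 by ring,
      abs_mul, abs_div]
    norm_num
    ring
  have hLR : ∀ θ, L z (pr θ) ≤ ENNReal.ofReal (R θ) := by
    intro θ
    unfold L
    rcases eq_or_ne (|pr θ - z|) 0 with h | h
    · rw [h]
      simp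
    · apply ENNReal.ofReal_le_ofReal
      have hne : ‖circleMap 0 1 θ - a‖ * ‖circleMap 0 1 θ - b‖ ≠ 0 := by
        rw [hprod]
        positivity
      have h1 := (mul_ne_zero_iff.1 hne)
      rw [hR]
      simp only
      rw [← Real.log_mul h1.1 h1.2, hprod, Real.log_mul (by norm_num) h]
      linarith
  have hint1 : ∀ c : ℂ, IntervalIntegrable (fun θ => Real.log ‖circleMap 0 1 θ - c‖) volume 0
      (2 * π) := fun c => circleIntegrable_log_norm_sub_const 1
  have hintR : IntervalIntegrable R volume 0 (2 * π) :=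
    intervalIntegrable_const.sub ((hint1 a).add (hint1 b))
  have hzero : ∀ c : ℂ, ‖c‖ = 1 → ∫ θ in (0 : ℝ)..(2 * π), Real.log ‖circleMap 0 1 θ - c‖ = 0 := by
    intro c hc
    have h := circleAverage_log_norm_sub_const₁ hc
    unfold Real.circleAverage at h
    rw [smul_eq_zero] at h
    rcases h with h | h
    · exfalso
      have : (2 * π)⁻¹ ≠ 0 := by positivity
      exact this h
    · exact h
  have hvalR : ∫ θ in (0 : ℝ)..(2 * π), R θ = 2 * π * Real.log 4 := by
    rw [hR]
    simp only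
    rw [intervalIntegral.integral_sub intervalIntegrable_const ((hint1 a).add (hint1 b)),
      intervalIntegral.integral_add (hint1 a) (hint1 b), hzero a han, hzero b hbn]
    simp
  unfold arcsine
  rw [lintegral_map (measurable_L z) measurable_pr, lintegral_smul_measure]
  calc ENNReal.ofReal (1 / (2 * π)) • ∫⁻ θ in Ioc 0 (2 * π), L z (pr θ)
      ≤ ENNReal.ofReal (1 / (2 * π)) * ∫⁻ θ in Ioc 0 (2 * π), ENNReal.ofReal (R θ) := by
        rw [smul_eq_mul]
        gcongr with θ
        exact hLR θ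
    _ = ENNReal.ofReal (1 / (2 * π)) * ENNReal.ofReal (2 * π * Real.log 4) := by
        congr 1
        rw [← ofReal_integral_eq_lintegral_ofReal]
        · rw [← hvalR, intervalIntegral.integral_of_le (by positivity)]
        · exact (intervalIntegrable_iff_integrableOn_Ioc_of_le (by positivity)).1 hintR
        · exact Eventually.of_forall hRnn
    _ = ENNReal.ofReal (Real.log 4) := by
        rw [← ENNReal.ofReal_mul (by positivity)]
        congr 1
        field_simp

end Pool.Agent.Lib_helper93.Mink
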