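import Pool.Agent.Lib_helper93.Mink.Defs

open MeasureTheory Set Filter
open scoped Topology ENNReal Real

namespace Pool.Agent.Lib_helper93.Mink

theorem hasSum_cos {r : ℝ} (hr0 : 0 < r) (hr1 : r < 1) (t : ℝ) :
    HasSum (fun n : ℕ => r ^ n * Real.cos (n * t) / n)
      (-(Real.log (1 - 2 * r * Real.cos t + r ^ 2) / 2)) := by
  set z : ℂ := (r : ℂ) * Complex.exp (t * Complex.I) with hz
  have hzn : ‖z‖ < 1 := by
    rw [hz, norm_mul, Complex.norm_exp_ofReal_mul_I, Complex.norm_real, Real.norm_of_nonneg hr0.le]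
    simpa using hr1
  have h := Complex.hasSum_re (Complex.hasSum_taylorSeries_neg_log hzn)
  have e1 : ∀ n : ℕ, (z ^ n / n).re = r ^ n * Real.cos (n * t) / n := by
    intro n
    rw [hz, mul_pow, ← Complex.exp_nat_mul]
    have : (n : ℂ) * (t * Complex.I) = ((n * t : ℝ) : ℂ) * Complex.I := by
      push_cast
      ring
    rw [this]
    have h2 : ((r : ℂ) ^ n * Complex.exp (((n * t : ℝ) : ℂ) * Complex.I) / (n : ℂ)) =
        ((r ^ n / n : ℝ) : ℂ) * Complex.exp (((n * t : ℝ) : ℂ) * Complex.I) := by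
      push_cast
      ring
    rw [h2, Complex.re_ofReal_mul, Complex.exp_ofReal_mul_I_re]
    ring
  have e2 : (-Complex.log (1 - z)).re = -(Real.log (1 - 2 * r * Real.cos t + r ^ 2) / 2) := by
    rw [Complex.neg_re, Complex.log_re]
    have h3 : ‖1 - z‖ ^ 2 = 1 - 2 * r * Real.cos t + r ^ 2 := by
      rw [← Complex.normSq_eq_norm_sq, Complex.normSq_apply, hz]
      simp only [Complex.sub_re, Complex.one_re, Complex.re_ofReal_mul, Complex.exp_ofReal_mul_I_re,
        Complex.sub_im, Complex.one_im, Complex.im_ofReal_mul, Complex.exp_ofReal_mul_I_im]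
      have := Real.sin_sq_add_cos_sq t
      nlinarith
    rw [← h3, Real.log_pow]
    push_cast
    ring
  simp only [e1] at h
  rw [e2] at h
  exact h

/-- The kernel. -/
noncomputable def ker (r : ℝ) (n : ℕ) (x y : ℝ) : ℝ :=
  2 * r ^ n / n * (Real.cos (n * Real.arccos (2 * x - 1)) * Real.cos (n * Real.arccos (2 * y - 1)))

theorem ker_hasSum {r : ℝ} (hr0 : 0 < r) (hr1 : r < 1) (x y : ℝ) :
    HasSum (fun n => ker r n x y)
      (-(Real.log (1 - 2 * r * Real.cos (Real.arccos (2 * x - 1) - Real.arccos (2 * y - 1)) + r ^ 2)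
        / 2) +
      -(Real.log (1 - 2 * r * Real.cos (Real.arccos (2 * x - 1) + Real.arccos (2 * y - 1)) + r ^ 2)
        / 2)) := by
  have h1 := hasSum_cos hr0 hr1 (Real.arccos (2 * x - 1) - Real.arccos (2 * y - 1))
  have h2 := hasSum_cos hr0 hr1 (Real.arccos (2 * x - 1) + Real.arccos (2 * y - 1))
  refine (h1.add h2).congr_fun ?_
  intro n
  unfold ker
  rw [mul_sub, mul_add, Real.cos_sub, Real.cos_add]
  ring

theorem ker_le {r : ℝ} (hr0 : 0 < r) (hr1 : r < 1) {x y : ℝ} (hx : x ∈ Icc (0 : ℝ) 1)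
    (hy : y ∈ Icc (0 : ℝ) 1) (hxy : x ≠ y) :
    Real.log |x - y| ≤ -Real.log 4 - Real.log r - ∑' n, ker r n x y := by
  rw [(ker_hasSum hr0 hr1 x y).tsum_eq]
  set θ := Real.arccos (2 * x - 1) with hθ
  set φ := Real.arccos (2 * y - 1) with hφ
  have hcθ : Real.cos θ = 2 * x - 1 :=
    Real.cos_arccos (by linarith [hx.1]) (by linarith [hx.2])
  have hcφ : Real.cos φ = 2 * y - 1 :=
    Real.cos_arccos (by linarith [hy.1]) (by linarith [hy.2])
  have hA : ∀ t : ℝ, r * (2 - 2 * Real.cos t) ≤ 1 - 2 * r * Real.cos t + r ^ 2 := by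
    intro t
    nlinarith [sq_nonneg (1 - r)]
  have hnn : ∀ t : ℝ, 0 ≤ r * (2 - 2 * Real.cos t) := by
    intro t
    have := Real.cos_le_one t
    apply mul_nonneg hr0.le
    linarith
  have hprod : (r * (2 - 2 * Real.cos (θ - φ))) * (r * (2 - 2 * Real.cos (θ + φ))) =
      (4 * r * |x - y|) ^ 2 := by
    rw [mul_pow, sq_abs, Real.cos_sub, Real.cos_add, hcθ, hcφ]
    have h1 := Real.sin_sq_add_cos_sq θ
    have h2 := Real.sin_sq_add_cos_sq φ
    rw [hcθ] at h1
    rw [hcφ] at h2
    have h3 : Real.sin θ ^ 2 = 1 - (2 * x - 1) ^ 2 := by linarith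
    have h4 : Real.sin φ ^ 2 = 1 - (2 * y - 1) ^ 2 := by linarith
    linear_combination (-4 * r ^ 2 * Real.sin φ ^ 2) * h3 +
      (-4 * r ^ 2 * (1 - (2 * x - 1) ^ 2)) * h4
  have hpos : 0 < 4 * r * |x - y| := by
    have := abs_pos.2 (sub_ne_zero.2 hxy)
    positivity
  have hle : (4 * r * |x - y|) ^ 2 ≤ (1 - 2 * r * Real.cos (θ - φ) + r ^ 2) *
      (1 - 2 * r * Real.cos (θ + φ) + r ^ 2) := by
    rw [← hprod]
    exact mul_le_mul (hA _) (hA _) (hnn _) ((hnn _).trans (hA _))
  have hApos : ∀ t : ℝ, 0 < 1 - 2 * r * Real.cos t + r ^ 2 := by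
    intro t
    have := Real.cos_le_one t
    nlinarith [sq_pos_of_pos (sub_pos.2 hr1)]
  have hlog := Real.log_le_log (by positivity) hle
  rw [Real.log_mul (hApos _).ne' (hApos _).ne', Real.log_pow] at hlog
  have h5 : Real.log (4 * r * |x - y|) = Real.log 4 + Real.log r + Real.log |x - y| := by
    rw [Real.log_mul (by positivity) (abs_pos.2 (sub_ne_zero.2 hxy)).ne',
      Real.log_mul (by norm_num) hr0.ne']
  rw [h5] at hlog
  push_cast at hlog
  linarith

theorem energy_bound {ν : Measure ℝ} (hν : IsProbabilityMeasure ν) (h01 : ν (Icc 0 1)ᶜ = 0)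
    (hE : HasFiniteEnergy ν) :
    ∫ z, Real.log |z.1 - z.2| ∂(ν.prod ν) ≤ Real.log (1 / 4) := by
  have key : ∀ r : ℝ, 0 < r → r < 1 →
      ∫ z, Real.log |z.1 - z.2| ∂(ν.prod ν) ≤ -Real.log 4 - Real.log r := by
    intro r hr0 hr1
    -- summability and integrability of the kernel
    have hc : ∀ n : ℕ, Continuous (fun x : ℝ => Real.cos (n * Real.arccos (2 * x - 1))) := by
      intro n
      exact Real.continuous_cos.comp (continuous_const.mul (Real.continuous_arccos.comp
        ((continuous_const.mul continuous_id).sub continuous_const)))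
    have hbd : ∀ (n : ℕ) (z : ℝ × ℝ), ‖ker r n z.1 z.2‖ ≤ 2 * r ^ n := by
      intro n z
      unfold ker
      rw [norm_mul, norm_mul]
      have h1 : ‖Real.cos (n * Real.arccos (2 * z.1 - 1))‖ ≤ 1 := Real.abs_cos_le_one _
      have h2 : ‖Real.cos (n * Real.arccos (2 * z.2 - 1))‖ ≤ 1 := Real.abs_cos_le_one _
      have h3 : ‖2 * r ^ n / n‖ ≤ 2 * r ^ n := by
        rw [norm_div, Real.norm_of_nonneg (by positivity), Real.norm_natCast]
        rcases Nat.eq_zero_or_pos n with rfl | hn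
        · simp
        · apply div_le_self (by positivity)
          exact_mod_cast hn
      calc ‖2 * r ^ n / n‖ * (‖Real.cos (n * Real.arccos (2 * z.1 - 1))‖ *
            ‖Real.cos (n * Real.arccos (2 * z.2 - 1))‖) ≤ (2 * r ^ n) * (1 * 1) := by gcongr
        _ = 2 * r ^ n := by ring
    have hint : ∀ n, Integrable (fun z : ℝ × ℝ => ker r n z.1 z.2) (ν.prod ν) := by
      intro n
      refine Integrable.of_bound (C := 2 * r ^ n) ?_ (Eventually.of_forall (hbd n))
      apply Continuous.aestronglyMeasurable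
      unfold ker
      exact continuous_const.mul (((hc n).comp continuous_fst).mul ((hc n).comp continuous_snd))
    have hsum : Summable (fun n => ∫ z : ℝ × ℝ, ‖ker r n z.1 z.2‖ ∂(ν.prod ν)) := by
      refine Summable.of_nonneg_of_le (fun n => integral_nonneg fun z => norm_nonneg _)
        (g := fun n => ∫ z : ℝ × ℝ, ‖ker r n z.1 z.2‖ ∂(ν.prod ν)) (f := fun n => 2 * r ^ n) ?_ ?_
      · intro n
        calc ∫ z : ℝ × ℝ, ‖ker r n z.1 z.2‖ ∂(ν.prod ν) ≤ ∫ z : ℝ × ℝ, 2 * r ^ n ∂(ν.prod ν) :=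
              integral_mono (hint n).norm (integrable_const _) (hbd n)
          _ = 2 * r ^ n := by simp
      · exact (summable_geometric_of_lt_one hr0.le hr1).mul_left 2
    have hS := hasSum_integral_of_summable_integral_norm hint hsum
    have hSnn : 0 ≤ ∫ z : ℝ × ℝ, ∑' n, ker r n z.1 z.2 ∂(ν.prod ν) := by
      refine hS.nonneg fun n => ?_
      unfold ker
      rw [integral_const_mul, integral_prod_mul (fun x => Real.cos (n * Real.arccos (2 * x - 1)))
        (fun y => Real.cos (n * Real.arccos (2 * y - 1)))]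
      apply mul_nonneg (by positivity) (mul_self_nonneg _)
    have hSint : Integrable (fun z : ℝ × ℝ => ∑' n, ker r n z.1 z.2) (ν.prod ν) := by
      refine Integrable.of_bound (C := ∑' n, 2 * r ^ n) ?_ (Eventually.of_forall fun z => ?_)
      · apply Continuous.aestronglyMeasurable
        refine continuous_tsum (u := fun n => 2 * r ^ n) (fun n => ?_)
          ((summable_geometric_of_lt_one hr0.le hr1).mul_left 2) (fun n z => hbd n z)
        unfold ker
        exact continuous_const.mul (((hc n).comp continuous_fst).mul ((hc n).comp continuous_snd))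
      · exact tsum_of_norm_bounded
          ((summable_geometric_of_lt_one hr0.le hr1).mul_left 2).hasSum (fun n => hbd n z)
    have hae : ∀ᵐ z ∂(ν.prod ν), Real.log |z.1 - z.2| ≤
        -Real.log 4 - Real.log r - ∑' n, ker r n z.1 z.2 := by
      have h1 : ∀ᵐ z ∂(ν.prod ν), z.1 ≠ z.2 := measure_eq_zero_iff_ae_notMem.1 hE.1
      have h2 : ∀ᵐ z : ℝ × ℝ ∂(ν.prod ν), z.1 ∈ Icc (0 : ℝ) 1 := by
        exact Measure.quasiMeasurePreserving_fst.ae (p := fun x => x ∈ Icc (0 : ℝ) 1) h01
      have h3 : ∀ᵐ z : ℝ × ℝ ∂(ν.prod ν), z.2 ∈ Icc (0 : ℝ) 1 := by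
        exact Measure.quasiMeasurePreserving_snd.ae (p := fun x => x ∈ Icc (0 : ℝ) 1) h01
      filter_upwards [h1, h2, h3] with z h1 h2 h3
      exact ker_le hr0 hr1 h2 h3 h1
    calc ∫ z, Real.log |z.1 - z.2| ∂(ν.prod ν)
        ≤ ∫ z, (-Real.log 4 - Real.log r - ∑' n, ker r n z.1 z.2) ∂(ν.prod ν) :=
          integral_mono_ae hE.2 ((integrable_const _).sub hSint) hae
      _ = -Real.log 4 - Real.log r - ∫ z : ℝ × ℝ, ∑' n, ker r n z.1 z.2 ∂(ν.prod ν) := by
          rw [integral_sub (integrable_const _) hSint]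
          simp
      _ ≤ -Real.log 4 - Real.log r := by linarith
  have hlim : Tendsto (fun r : ℝ => -Real.log 4 - Real.log r) (𝓝[<] 1) (𝓝 (-Real.log 4 - Real.log 1)) := by
    have : ContinuousAt (fun r : ℝ => -Real.log 4 - Real.log r) 1 := by
      apply ContinuousAt.sub continuousAt_const
      exact Real.continuousAt_log one_ne_zero
    exact this.tendsto.mono_left nhdsWithin_le_nhds
  have h := ge_of_tendsto hlim (by
    filter_upwards [Ioo_mem_nhdsLT (show (0 : ℝ) < 1 by norm_num)] with r hr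
    exact key r hr.1 hr.2)
  rw [one_div, Real.log_inv]
  simpa using h

theorem cap_le {K : Set ℝ} (hK : K ⊆ Icc 0 1) : cap K ≤ ENNReal.ofReal (1 / 4) := by
  unfold cap
  refine iSup_le fun ν => iSup_le fun hν => iSup_le fun hνK => iSup_le fun hE => ?_
  apply ENNReal.ofReal_le_ofReal
  have h01 : ν (Icc 0 1)ᶜ = 0 := measure_mono_null (compl_subset_compl.2 hK) hνK
  have := energy_bound hν h01 hE
  calc Real.exp (∫ z, Real.log |z.1 - z.2| ∂(ν.prod ν)) ≤ Real.exp (Real.log (1 / 4)) :=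
        Real.exp_le_exp.2 this
    _ = 1 / 4 := Real.exp_log (by norm_num)

theorem capBorel_le : capBorel (Icc 0 1) ≤ ENNReal.ofReal (1 / 4) := by
  unfold capBorel
  exact iSup_le fun K => iSup_le fun _ => iSup_le fun hK => cap_le hK

end Pool.Agent.Lib_helper93.Mink
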