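import Pool.Agent.Lib_helper93.Mink.Potential
import Pool.Agent.Lib_helper93.Mink.Energy

open MeasureTheory Set Filter
open scoped Topology ENNReal Real

namespace Pool.Agent.Lib_helper93.Mink

variable {μ : Measure ℝ}

theorem nuK_ac (F : Finset (ℕ × ℕ × ℕ × ℕ)) (K : Set ℝ) : nuK μ F K ≪ μ := by
  intro s hs
  unfold nuK
  rw [Measure.finsetSum_apply]
  refine Finset.sum_eq_zero fun t _ => ?_
  rw [Measure.smul_apply, smul_eq_mul]
  have : μ.restrict (K ∩ iv t) s = 0 :=
    le_antisymm ((Measure.restrict_apply_le _ _).trans hs.le) (zero_le)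
  rw [this, mul_zero]

theorem nuK_compl (F : Finset (ℕ × ℕ × ℕ × ℕ)) {K : Set ℝ} (hK : MeasurableSet K) :
    nuK μ F K Kᶜ = 0 := by
  unfold nuK
  rw [Measure.finsetSum_apply]
  refine Finset.sum_eq_zero fun t _ => ?_
  rw [Measure.smul_apply, smul_eq_mul, Measure.restrict_apply hK.compl]
  have : Kᶜ ∩ (K ∩ iv t) = ∅ := by
    rw [← inter_assoc, compl_inter_self, empty_inter]
  rw [this, measure_empty, mul_zero]

/-- Probability measures on `[0,1]` without atoms and with bounded logarithmic potential. -/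
theorem energy_of_potential {ν : Measure ℝ} (hν : IsProbabilityMeasure ν)
    (h01 : ν (Icc 0 1)ᶜ = 0) (hat : ∀ x, ν {x} = 0) {c : ℝ} (hc : 0 ≤ c)
    (hpot : ∀ z ∈ Icc (0 : ℝ) 1, ∫⁻ x, L z x ∂ν ≤ ENNReal.ofReal c) :
    HasFiniteEnergy ν ∧ -c ≤ ∫ z, Real.log |z.1 - z.2| ∂(ν.prod ν) := by
  have hmeas : Measurable (fun z : ℝ × ℝ => Real.log |z.1 - z.2|) :=
    Real.measurable_log.comp (measurable_fst.sub measurable_snd).abs
  have h2 : ∀ᵐ z : ℝ × ℝ ∂(ν.prod ν), z.1 ∈ Icc (0 : ℝ) 1 :=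
    Measure.quasiMeasurePreserving_fst.ae (p := fun x => x ∈ Icc (0 : ℝ) 1) h01
  have h3 : ∀ᵐ z : ℝ × ℝ ∂(ν.prod ν), z.2 ∈ Icc (0 : ℝ) 1 :=
    Measure.quasiMeasurePreserving_snd.ae (p := fun x => x ∈ Icc (0 : ℝ) 1) h01
  have hnn : ∀ᵐ z : ℝ × ℝ ∂(ν.prod ν), 0 ≤ -Real.log |z.1 - z.2| := by
    filter_upwards [h2, h3] with z h2 h3
    rw [neg_nonneg]
    apply Real.log_nonpos (abs_nonneg _)
    rw [abs_le]
    constructor
    · linarith [h2.1, h3.2]
    · linarith [h2.2, h3.1]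
  have hlin : ∫⁻ z, ENNReal.ofReal (-Real.log |z.1 - z.2|) ∂(ν.prod ν) ≤ ENNReal.ofReal c := by
    have hm0 : Measurable (fun z : ℝ × ℝ => ENNReal.ofReal (-Real.log |z.1 - z.2|)) :=
      ENNReal.measurable_ofReal.comp hmeas.neg
    rw [lintegral_prod_symm _ hm0.aemeasurable]
    have h01' : ∀ᵐ y ∂ν, y ∈ Icc (0 : ℝ) 1 := h01
    calc ∫⁻ y, ∫⁻ x, ENNReal.ofReal (-Real.log |x - y|) ∂ν ∂ν
        ≤ ∫⁻ y, ENNReal.ofReal c ∂ν := by
          refine lintegral_mono_ae ?_
          filter_upwards [h01'] with y hy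
          exact hpot y hy
      _ = ENNReal.ofReal c := by simp
  have hdiag : (ν.prod ν) {z | z.1 = z.2} = 0 := by
    have hm : MeasurableSet {z : ℝ × ℝ | z.1 = z.2} := measurableSet_eq_fun measurable_fst
      measurable_snd
    rw [Measure.measure_prod_null hm]
    refine Eventually.of_forall fun x => ?_
    have : Prod.mk x ⁻¹' {z : ℝ × ℝ | z.1 = z.2} = {x} := by
      ext y
      simp [eq_comm]
    change ν (Prod.mk x ⁻¹' {z : ℝ × ℝ | z.1 = z.2}) = 0
    rw [this, hat]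
  have hint : Integrable (fun z : ℝ × ℝ => -Real.log |z.1 - z.2|) (ν.prod ν) := by
    refine ⟨hmeas.neg.aestronglyMeasurable, ?_⟩
    rw [hasFiniteIntegral_iff_ofReal hnn]
    exact hlin.trans_lt ENNReal.ofReal_lt_top
  refine ⟨⟨hdiag, by simpa using hint.neg⟩, ?_⟩
  have h4 : ∫ z, -Real.log |z.1 - z.2| ∂(ν.prod ν) ≤ c := by
    rw [integral_eq_lintegral_of_nonneg_ae hnn hmeas.neg.aestronglyMeasurable]
    exact ENNReal.toReal_le_of_le_ofReal hc hlin
  rw [integral_neg] at h4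
  linarith

theorem carrier_ge (hμ : IsQuestionMarkMeasure μ) {B : Set ℝ} (hB : MeasurableSet B)
    (hμB : μ Bᶜ = 0) : ENNReal.ofReal (1 / 4) ≤ capBorel B := by
  have hprob := hμ.prob
  have key : ∀ N : ℕ, 1 ≤ N → ENNReal.ofReal (Real.exp (-(Real.log 4 + err N))) ≤ capBorel B := by
    intro N hN
    obtain ⟨F, h1, h2, h3, h4⟩ := exists_partition N hN
    have hpos : ∀ t ∈ F, 0 < μ (iv t) := by
      intro t ht
      obtain ⟨m, hm, -⟩ := h1 t ht
      rw [iv, ← ofReal_measureReal, hμ.measure_ivl hm]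
      simp
    -- a small epsilon
    obtain ⟨ε, hε0, hε⟩ : ∃ ε : ℝ≥0∞, ε ≠ 0 ∧ ∀ t ∈ F, 2 * ε ≤ μ (iv t) := by
      have : ∃ ε : ℝ≥0∞, ε ≠ 0 ∧ ∀ t ∈ F, ε ≤ μ (iv t) / 2 := by
        refine ⟨min 1 (F.inf fun t => μ (iv t) / 2), ?_, ?_⟩
        · have : 0 < min (1 : ℝ≥0∞) (F.inf fun t => μ (iv t) / 2) := by
            refine lt_min one_pos ?_
            rw [Finset.lt_inf_iff (by simp)]
            intro t ht
            exact ENNReal.half_pos (hpos t ht).ne'
          exact this.ne'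
        · intro t ht
          exact (min_le_right _ _).trans (Finset.inf_le ht)
      obtain ⟨ε, h0, h⟩ := this
      refine ⟨ε, h0, fun t ht => ?_⟩
      calc 2 * ε ≤ 2 * (μ (iv t) / 2) := by gcongr; exact h t ht
        _ = μ (iv t) := ENNReal.mul_div_cancel (by norm_num) (by norm_num)
    have hBm : MeasurableSet (B ∩ Icc 0 1) := hB.inter measurableSet_Icc
    obtain ⟨K, hKB, hK, hKε⟩ := hBm.exists_isCompact_sdiff_lt (μ := μ) (measure_ne_top _ _) hε0
    have hKm : MeasurableSet K := hK.measurableSet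
    have hKc : μ Kᶜ ≤ ε := by
      have : Kᶜ ⊆ (B ∩ Icc 0 1) \ K ∪ (Bᶜ ∪ (Icc 0 1)ᶜ) := by
        intro x hx
        by_cases h : x ∈ B ∩ Icc 0 1
        · exact Or.inl ⟨h, hx⟩
        · right
          rw [← compl_inter]
          exact h
      refine (measure_mono this).trans ((measure_union_le _ _).trans ?_)
      have h0 : μ (Bᶜ ∪ (Icc 0 1)ᶜ) = 0 := measure_union_null hμB hμ.compl
      rw [h0, add_zero]
      exact hKε.le
    have hKt : ∀ t ∈ F, μ (iv t) ≤ 2 * μ (K ∩ iv t) := by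
      intro t ht
      have h5 : μ (iv t) ≤ μ (K ∩ iv t) + ε := by
        have : iv t ⊆ (K ∩ iv t) ∪ Kᶜ := by
          intro x hx
          by_cases h : x ∈ K
          · exact Or.inl ⟨h, hx⟩
          · exact Or.inr h
        exact (measure_mono this).trans ((measure_union_le _ _).trans (by gcongr))
      have h6 := hε t ht
      have h7 : μ (iv t) + μ (iv t) ≤ 2 * μ (K ∩ iv t) + μ (iv t) := by
        calc μ (iv t) + μ (iv t) ≤ (μ (K ∩ iv t) + ε) + (μ (K ∩ iv t) + ε) := add_le_add h5 h5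
          _ = 2 * μ (K ∩ iv t) + 2 * ε := by ring
          _ ≤ 2 * μ (K ∩ iv t) + μ (iv t) := by gcongr
      exact (ENNReal.add_le_add_iff_right (measure_ne_top _ _)).1 h7
    set ν := nuK μ F K with hν
    have hνp : IsProbabilityMeasure ν := ⟨nuK_univ hμ h1 h2 h3 hKt⟩
    have hνK : ν Kᶜ = 0 := nuK_compl F hKm
    have hν01 : ν (Icc 0 1)ᶜ = 0 := nuK_ac F K hμ.compl
    have hat : ∀ x, ν {x} = 0 := fun x => nuK_ac F K (hμ.singleton x)
    have hc : 0 ≤ Real.log 4 + err N := by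
      have := err_nonneg hN
      have := Real.log_nonneg (show (1 : ℝ) ≤ 4 by norm_num)
      positivity
    obtain ⟨hfe, hen⟩ := energy_of_potential hνp hν01 hat hc
      (fun z hz => potential_bound hμ hN h1 h2 h3 h4 hKm hKt hz)
    calc ENNReal.ofReal (Real.exp (-(Real.log 4 + err N)))
        ≤ ENNReal.ofReal (Real.exp (∫ z, Real.log |z.1 - z.2| ∂(ν.prod ν))) := by
          apply ENNReal.ofReal_le_ofReal
          exact Real.exp_le_exp.2 hen
      _ ≤ cap K := by
          unfold cap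
          exact le_iSup_of_le ν (le_iSup_of_le hνp (le_iSup_of_le hνK (le_iSup_of_le hfe le_rfl)))
      _ ≤ capBorel B := by
          unfold capBorel
          exact le_iSup_of_le K (le_iSup_of_le hK
            (le_iSup_of_le (hKB.trans inter_subset_left) le_rfl))
  have hlim : Tendsto (fun N : ℕ => ENNReal.ofReal (Real.exp (-(Real.log 4 + err N)))) atTop
      (𝓝 (ENNReal.ofReal (Real.exp (-(Real.log 4 + 0))))) := by
    apply ENNReal.tendsto_ofReal
    exact (Real.continuous_exp.tendsto _).comp ((tendsto_const_nhds.add err_tendsto).neg)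
  have h5 := le_of_tendsto hlim (by
    filter_upwards [eventually_ge_atTop 1] with N hN using key N hN)
  have h6 : Real.exp (-(Real.log 4 + 0)) = 1 / 4 := by
    rw [add_zero, Real.exp_neg, Real.exp_log (by norm_num)]
    norm_num
  rwa [h6] at h5

/-- The minimal carrier capacity of Minkowski's question mark measure is `1/4`. -/
theorem carrierCap_eq (hμ : IsQuestionMarkMeasure μ) : carrierCap μ = ENNReal.ofReal (1 / 4) := by
  apply le_antisymm
  · unfold carrierCap
    exact iInf_le_of_le (Icc 0 1) (iInf_le_of_le measurableSet_Icc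
      (iInf_le_of_le hμ.compl capBorel_le))
  · unfold carrierCap
    exact le_iInf fun B => le_iInf fun hB => le_iInf fun hμB => carrier_ge hμ hB hμB

end Pool.Agent.Lib_helper93.Mink
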