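import Mathlib

open MeasureTheory Set Filter Polynomial
open scoped Topology ENNReal

namespace Pool.Agent.Lib_helper93.Mink

/-- The Gauss map `x ↦ {1/x}` (it sends `0` to `0`). -/
noncomputable def gauss (x : ℝ) : ℝ := Int.fract (1 / x)

/-- `digit x k` is the partial quotient `a_{k+1}` of `x = [0; a_1, a_2, …]`, as long as
`gauss^[k] x ≠ 0`, i.e. as long as the expansion has not ended before. -/
noncomputable def digit (x : ℝ) (k : ℕ) : ℕ := ⌊1 / (gauss^[k] x)⌋₊

/-- Minkowski's question mark function on `[0, 1]`,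
`q(x) = 2 ∑_{k ≥ 1} (-1)^{k+1} / 2^{a_1 + ⋯ + a_k}`, the sum being over all partial quotients
`a_1, …, a_k, …` of the (finite or infinite) regular continued fraction of `x`. -/
noncomputable def questionMark (x : ℝ) : ℝ :=
  2 * ∑' k : ℕ, if gauss^[k] x = 0 then 0 else
    (-1) ^ k / 2 ^ (∑ i ∈ Finset.range (k + 1), digit x i)

/-- `μ` is Minkowski's question mark measure: the Borel probability measure on `[0, 1]` with
distribution function `questionMark`. (Taking `x = 1` shows that `μ [0, 1] = 1`.) -/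
structure IsQuestionMarkMeasure (μ : Measure ℝ) : Prop where
  prob : IsProbabilityMeasure μ
  cdf : ∀ x ∈ Icc (0 : ℝ) 1, μ (Icc 0 x) = ENNReal.ofReal (questionMark x)

/-- `p` is the sequence of orthonormal polynomials of `μ`, with positive leading coefficients. -/
structure IsOrthonormal (μ : Measure ℝ) (p : ℕ → ℝ[X]) : Prop where
  natDegree_eq : ∀ n, (p n).natDegree = n
  leadingCoeff_pos : ∀ n, 0 < (p n).leadingCoeff
  integral_mul : ∀ m n, ∫ x, (p m).eval x * (p n).eval x ∂μ = if m = n then 1 else 0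

/-- `a` and `b` are the recurrence coefficients of `p`:
`x p_n = a_{n+1} p_{n+1} + b_n p_n + a_n p_{n-1}` for `n ≥ 0`, with `p_{-1} = 0`. -/
structure IsRecurrence (p : ℕ → ℝ[X]) (a b : ℕ → ℝ) : Prop where
  pos : ∀ n, 1 ≤ n → 0 < a n
  zero : X * p 0 = C (a 1) * p 1 + C (b 0) * p 0
  succ : ∀ n, X * p (n + 1) = C (a (n + 2)) * p (n + 2) + C (b (n + 1)) * p (n + 1) +
    C (a (n + 1)) * p n

/-- `ν` has finite logarithmic energy: the diagonal is `ν × ν`-null and `log |x - y|` is
`ν × ν`-integrable. (For a probability measure on a compact set, `-log |x - y|` is bounded below,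
so this says exactly that `∬ log (1 / |x - y|) dν dν < ∞`.) -/
def HasFiniteEnergy (ν : Measure ℝ) : Prop :=
  (ν.prod ν) {z | z.1 = z.2} = 0 ∧
    Integrable (fun z : ℝ × ℝ => Real.log |z.1 - z.2|) (ν.prod ν)

/-- Logarithmic capacity of a compact set `K ⊆ ℝ`: the supremum of `exp (-I(ν))` over the Borel
probability measures `ν` on `K` of finite logarithmic energy
`I(ν) = ∬ log (1 / |x - y|) dν(x) dν(y)` (it is `0` if there is none). -/
noncomputable def cap (K : Set ℝ) : ℝ≥0∞ :=
  ⨆ (ν : Measure ℝ) (_ : IsProbabilityMeasure ν) (_ : ν Kᶜ = 0) (_ : HasFiniteEnergy ν),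
    ENNReal.ofReal (Real.exp (∫ z, Real.log |z.1 - z.2| ∂(ν.prod ν)))

/-- Capacity of a Borel set `B`: the supremum of `cap K` over the compact sets `K ⊆ B`. -/
noncomputable def capBorel (B : Set ℝ) : ℝ≥0∞ := ⨆ (K : Set ℝ) (_ : IsCompact K) (_ : K ⊆ B), cap K

/-- The minimal carrier capacity `c(μ) = inf {cap B : B Borel, μ (ℝ ∖ B) = 0}`. -/
noncomputable def carrierCap (μ : Measure ℝ) : ℝ≥0∞ :=
  ⨅ (B : Set ℝ) (_ : MeasurableSet B) (_ : μ Bᶜ = 0), capBorel B

end Pool.Agent.Lib_helper93.Mink
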