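import Pool.Agent.Lib_helper93.Mink.Poly

open MeasureTheory Set Filter Polynomial
open scoped Topology ENNReal Real

namespace Pool.Agent.Lib_helper93.Mink

theorem questionMark_abs_le {x : ℝ} (hx : x ∈ Icc (0 : ℝ) 1) : |questionMark x| ≤ 2 := by
  rw [questionMark_eq, abs_mul, abs_two]
  have h1 : ‖∑' k, term x k‖ ≤ ∑' k : ℕ, (1 / 2 : ℝ) ^ (k + 1) :=
    tsum_of_norm_bounded ((summable_nat_add_iff 1).2
      (summable_geometric_of_lt_one (by norm_num) (by norm_num))).hasSum (term_bound hx)
  have h2 : ∑' k : ℕ, (1 / 2 : ℝ) ^ (k + 1) = 1 := by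
    simp only [pow_succ]
    rw [tsum_mul_right, tsum_geometric_two]
    norm_num
  rw [h2, Real.norm_eq_abs] at h1
  linarith

/-- Every point of `[0,1]` lies in the left or in the right half. -/
theorem half_cases {x : ℝ} (hx : x ∈ Icc (0 : ℝ) 1) :
    (x ≤ 1 / 2 ∧ ∃ t ∈ Icc (0 : ℝ) 1, x = t / (1 + t)) ∨
    (1 / 2 ≤ x ∧ ∃ t ∈ Icc (0 : ℝ) 1, x = 1 / (2 - t)) := by
  rcases le_total x (1 / 2) with h | h
  · left
    have h1 : 0 < 1 - x := by linarith
    refine ⟨h, x / (1 - x), ⟨div_nonneg hx.1 h1.le, by rw [div_le_one h1]; linarith⟩, ?_⟩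
    field_simp
    ring
  · right
    have h1 : 0 < x := by linarith
    refine ⟨h, 2 - 1 / x, ⟨?_, ?_⟩, ?_⟩
    · rw [sub_nonneg, div_le_iff₀ h1]
      linarith
    · rw [sub_le_comm, le_div_iff₀ h1]
      linarith [hx.2]
    · rw [sub_sub_cancel, one_div_one_div]

theorem questionMark_bounds (m : ℕ) : ∀ x ∈ Icc (0 : ℝ) 1,
    -(2 / 2 ^ m) ≤ questionMark x ∧ questionMark x ≤ 1 + 2 / 2 ^ m := by
  induction m with
  | zero =>
    intro x hx
    have := abs_le.1 (questionMark_abs_le hx)
    simp only [pow_zero, div_one]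
    exact ⟨this.1, by linarith [this.2]⟩
  | succ m ih =>
    intro x hx
    have e : (2 : ℝ) / 2 ^ (m + 1) = (2 / 2 ^ m) / 2 := by
      rw [pow_succ]
      field_simp
    rw [e]
    rcases half_cases hx with ⟨-, t, ht, rfl⟩ | ⟨-, t, ht, rfl⟩
    · rw [questionMark_left ht]
      have := ih t ht
      constructor <;> linarith [this.1, this.2]
    · rw [questionMark_right ht]
      have := ih t ht
      constructor <;> linarith [this.1, this.2]

theorem tendsto_two_pow : Tendsto (fun m : ℕ => (2 : ℝ) / 2 ^ m) atTop (𝓝 0) := by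
  have h1 : Tendsto (fun m : ℕ => (2 : ℝ) * (1 / 2) ^ m) atTop (𝓝 (2 * 0)) :=
    (tendsto_pow_atTop_nhds_zero_of_lt_one (by norm_num) (by norm_num)).const_mul _
  rw [mul_zero] at h1
  refine h1.congr fun m => ?_
  rw [one_div_pow]
  ring

theorem questionMark_mem {x : ℝ} (hx : x ∈ Icc (0 : ℝ) 1) : questionMark x ∈ Icc (0 : ℝ) 1 := by
  constructor
  · have h : Tendsto (fun m : ℕ => -((2 : ℝ) / 2 ^ m)) atTop (𝓝 (-0)) := tendsto_two_pow.neg
    rw [neg_zero] at h
    exact le_of_tendsto' h fun m => (questionMark_bounds m x hx).1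
  · have h : Tendsto (fun m : ℕ => 1 + (2 : ℝ) / 2 ^ m) atTop (𝓝 (1 + 0)) :=
      tendsto_const_nhds.add tendsto_two_pow
    rw [add_zero] at h
    exact ge_of_tendsto' h fun m => (questionMark_bounds m x hx).2

theorem left_mono {t s : ℝ} (ht : 0 ≤ t) (hs : 0 ≤ s) (h : t / (1 + t) ≤ s / (1 + s)) : t ≤ s := by
  rw [div_le_div_iff₀ (by linarith) (by linarith)] at h
  linarith

theorem right_mono {t s : ℝ} (ht : t ≤ 1) (hs : s ≤ 1) (h : 1 / (2 - t) ≤ 1 / (2 - s)) :
    t ≤ s := by
  rw [div_le_div_iff₀ (by linarith) (by linarith)] at h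
  linarith

theorem questionMark_mono_aux (m : ℕ) : ∀ x ∈ Icc (0 : ℝ) 1, ∀ y ∈ Icc (0 : ℝ) 1, x ≤ y →
    -(2 / 2 ^ m) ≤ questionMark y - questionMark x := by
  induction m with
  | zero =>
    intro x hx y hy _
    have h1 := questionMark_mem hx
    have h2 := questionMark_mem hy
    simp only [pow_zero, div_one]
    linarith [h1.2, h2.1]
  | succ m ih =>
    intro x hx y hy hxy
    have e : (2 : ℝ) / 2 ^ (m + 1) = (2 / 2 ^ m) / 2 := by
      rw [pow_succ]
      field_simp
    have hpos : (0 : ℝ) < 2 / 2 ^ m := by positivity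
    rw [e]
    rcases half_cases hx with ⟨-, t, ht, rfl⟩ | ⟨h1, t, ht, rfl⟩
    · rcases half_cases hy with ⟨-, s, hs, rfl⟩ | ⟨-, s, hs, rfl⟩
      · rw [questionMark_left ht, questionMark_left hs]
        have := ih t ht s hs (left_mono ht.1 hs.1 hxy)
        linarith
      · rw [questionMark_left ht, questionMark_right hs]
        have h3 := questionMark_mem ht
        have h4 := questionMark_mem hs
        linarith [h3.2, h4.1]
    · rcases half_cases hy with ⟨h2, s, hs, rfl⟩ | ⟨-, s, hs, rfl⟩
      · have h5 : s / (1 + s) = 1 / 2 := le_antisymm h2 (h1.trans hxy)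
        have h6 : 1 / (2 - t) = 1 / 2 := le_antisymm (hxy.trans h2) h1
        rw [h5, h6]
        linarith
      · rw [questionMark_right ht, questionMark_right hs]
        have := ih t ht s hs (right_mono ht.2 hs.2 hxy)
        linarith

theorem questionMark_mono {x y : ℝ} (hx : x ∈ Icc (0 : ℝ) 1) (hy : y ∈ Icc (0 : ℝ) 1)
    (hxy : x ≤ y) : questionMark x ≤ questionMark y := by
  have h : Tendsto (fun m : ℕ => -((2 : ℝ) / 2 ^ m)) atTop (𝓝 (-0)) := tendsto_two_pow.neg
  rw [neg_zero] at h
  have := le_of_tendsto' h fun m => questionMark_mono_aux m x hx y hy hxy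
  linarith

theorem questionMark_right_cont (m : ℕ) : ∀ x ∈ Ico (0 : ℝ) 1, ∃ y, x < y ∧ y ≤ 1 ∧
    questionMark y - questionMark x ≤ 1 / 2 ^ m := by
  induction m with
  | zero =>
    intro x hx
    refine ⟨1, hx.2, le_rfl, ?_⟩
    have := questionMark_mem ⟨hx.1, hx.2.le⟩
    rw [questionMark_one]
    simp only [pow_zero, div_one]
    linarith [this.1]
  | succ m ih =>
    intro x hx
    have e : (1 : ℝ) / 2 ^ (m + 1) = (1 / 2 ^ m) / 2 := by
      rw [pow_succ]
      field_simp
    rw [e]
    rcases lt_or_ge x (1 / 2) with h | h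
    · have h1 : 0 < 1 - x := by linarith
      obtain ⟨s, hs1, hs2, hs3⟩ := ih (x / (1 - x)) ⟨div_nonneg hx.1 h1.le, by
        rw [div_lt_one h1]; linarith⟩
      have hx' : x = (x / (1 - x)) / (1 + x / (1 - x)) := by
        field_simp
        ring
      have ht0 : 0 ≤ x / (1 - x) := div_nonneg hx.1 h1.le
      have hs0 : 0 ≤ s := ht0.trans hs1.le
      refine ⟨s / (1 + s), ?_, ?_, ?_⟩
      · conv_lhs => rw [hx']
        rw [div_lt_div_iff₀ (by linarith) (by linarith)]
        linarith
      · rw [div_le_one (by linarith)]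
        linarith
      · conv_lhs => rw [hx']
        rw [questionMark_left ⟨hs0, hs2⟩, questionMark_left ⟨ht0, hs1.le.trans hs2⟩]
        linarith
    · have h1 : 0 < x := by linarith
      have ht0 : 0 ≤ 2 - 1 / x := by
        rw [sub_nonneg, div_le_iff₀ h1]
        linarith
      obtain ⟨s, hs1, hs2, hs3⟩ := ih (2 - 1 / x) ⟨ht0, by
        rw [sub_lt_comm, lt_div_iff₀ h1]
        linarith [hx.2]⟩
      have hx' : x = 1 / (2 - (2 - 1 / x)) := by
        rw [sub_sub_cancel, one_div_one_div]
      refine ⟨1 / (2 - s), ?_, ?_, ?_⟩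
      · conv_lhs => rw [hx']
        exact one_div_lt_one_div_of_lt (by linarith) (by linarith)
      · rw [div_le_one (by linarith)]
        linarith
      · conv_lhs => rw [hx']
        rw [questionMark_right ⟨ht0.trans hs1.le, hs2⟩, questionMark_right ⟨ht0, hs1.le.trans hs2⟩]
        linarith

/-- Clamping to `[0,1]`. -/
noncomputable def cl (x : ℝ) : ℝ := max 0 (min 1 x)

theorem cl_mem (x : ℝ) : cl x ∈ Icc (0 : ℝ) 1 :=
  ⟨le_max_left _ _, max_le zero_le_one (min_le_left _ _)⟩

theorem cl_mono : Monotone cl := fun _ _ h => max_le_max le_rfl (min_le_min le_rfl h)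

theorem cl_of_mem {x : ℝ} (hx : x ∈ Icc (0 : ℝ) 1) : cl x = x := by
  unfold cl
  rw [min_eq_right hx.2, max_eq_right hx.1]

/-- The Stieltjes function of Minkowski's measure. -/
noncomputable def stieltjes : StieltjesFunction ℝ where
  toFun x := questionMark (cl x)
  mono' := fun _ _ h => questionMark_mono (cl_mem _) (cl_mem _) (cl_mono h)
  right_continuous' := by
    intro x
    rcases lt_or_ge x 0 with hx | hx
    · have : (fun x => questionMark (cl x)) =ᶠ[𝓝 x] fun _ => questionMark 0 := by
        filter_upwards [gt_mem_nhds hx] with y hy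
        have : cl y = 0 := by
          unfold cl
          rw [max_eq_left]
          exact (min_le_right _ _).trans hy.le
        rw [this]
      exact (continuousAt_const.congr this.symm).continuousWithinAt
    rcases le_or_gt 1 x with hx1 | hx1
    · have : ∀ y ∈ Ici x, questionMark (cl y) = questionMark 1 := by
        intro y hy
        have : cl y = 1 := by
          unfold cl
          rw [min_eq_left (hx1.trans hy), max_eq_right zero_le_one]
        rw [this]
      exact continuousWithinAt_const.congr this (this x self_mem_Ici)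
    · have hxI : x ∈ Icc (0 : ℝ) 1 := ⟨hx, hx1.le⟩
      rw [Metric.continuousWithinAt_iff]
      intro ε hε
      obtain ⟨m, hm⟩ := exists_pow_lt_of_lt_one hε (show (1 / 2 : ℝ) < 1 by norm_num)
      obtain ⟨y, hy1, hy2, hy3⟩ := questionMark_right_cont m x ⟨hx, hx1⟩
      refine ⟨y - x, by linarith, fun z hz hzd => ?_⟩
      rw [mem_Ici] at hz
      rw [Real.dist_eq, abs_of_nonneg (by linarith)] at hzd
      have hzy : z ≤ y := by linarith
      have hzI : z ∈ Icc (0 : ℝ) 1 := ⟨hx.trans hz, hzy.trans hy2⟩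
      have hyI : y ∈ Icc (0 : ℝ) 1 := ⟨hx.trans hy1.le, hy2⟩
      rw [cl_of_mem hzI, cl_of_mem hxI, Real.dist_eq,
        abs_of_nonneg (by linarith [questionMark_mono hxI hzI hz])]
      have := questionMark_mono hzI hyI hzy
      rw [one_div_pow] at hm
      linarith

theorem stieltjes_apply (x : ℝ) : stieltjes x = questionMark (cl x) := rfl

/-- **Minkowski's question mark measure exists.** -/
theorem exists_measure : ∃ μ : Measure ℝ, IsQuestionMarkMeasure μ := by
  have hbot : Tendsto stieltjes atBot (𝓝 0) := by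
    have : stieltjes =ᶠ[atBot] fun _ => 0 := by
      filter_upwards [eventually_le_atBot 0] with y hy
      have : cl y = 0 := by
        unfold cl
        rw [max_eq_left]
        exact (min_le_right _ _).trans hy
      rw [stieltjes_apply, this, questionMark_zero]
    exact tendsto_const_nhds.congr' this.symm
  have htop : Tendsto stieltjes atTop (𝓝 1) := by
    have : stieltjes =ᶠ[atTop] fun _ => 1 := by
      filter_upwards [eventually_ge_atTop 1] with y hy
      have : cl y = 1 := by
        unfold cl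
        rw [min_eq_left hy, max_eq_right zero_le_one]
      rw [stieltjes_apply, this, questionMark_one]
    exact tendsto_const_nhds.congr' this.symm
  refine ⟨stieltjes.measure, stieltjes.isProbabilityMeasure hbot htop, fun x hx => ?_⟩
  rw [StieltjesFunction.measure_Icc]
  have hl : Function.leftLim stieltjes 0 = 0 := by
    have : stieltjes =ᶠ[𝓝[<] 0] fun _ => 0 := by
      filter_upwards [self_mem_nhdsWithin] with y hy
      have : cl y = 0 := by
        unfold cl
        rw [max_eq_left]
        exact (min_le_right _ _).trans (le_of_lt hy)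
      rw [stieltjes_apply, this, questionMark_zero]
    exact leftLim_eq_of_tendsto (tendsto_const_nhds.congr' this.symm)
  rw [hl, stieltjes_apply, cl_of_mem hx, sub_zero]

section poly

variable {μ : Measure ℝ}

theorem integrable_mul (hμ : IsQuestionMarkMeasure μ) (R S : ℝ[X]) :
    Integrable (fun x => R.eval x * S.eval x) μ := by
  have := hμ.prob
  exact integrable_cont hμ.compl (R.continuous.mul S.continuous)

theorem integral_sq_pos (hμ : IsQuestionMarkMeasure μ) {R : ℝ[X]} (hR : R ≠ 0) :
    0 < ∫ x, R.eval x * R.eval x ∂μ := by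
  have hprob := hμ.prob
  rw [integral_pos_iff_support_of_nonneg (fun x => mul_self_nonneg _) (integrable_mul hμ R R)]
  have hfin : (Function.support fun x => R.eval x * R.eval x)ᶜ ⊆ (R.roots.toFinset : Set ℝ) := by
    intro x hx
    simp only [mem_compl_iff, Function.mem_support, not_not, mul_self_eq_zero] at hx
    simpa [hR] using hx
  have hnull : μ (R.roots.toFinset : Set ℝ) = 0 := by
    have : (R.roots.toFinset : Set ℝ) = ⋃ x ∈ (R.roots.toFinset : Set ℝ), {x} := by
      ext y; simp
    rw [this, measure_biUnion_null_iff (Finset.countable_toSet _)]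
    intro x _
    exact hμ.singleton x
  have h0 : μ (Function.support fun x => R.eval x * R.eval x)ᶜ = 0 := measure_mono_null hfin hnull
  by_contra h
  rw [not_lt, nonpos_iff_eq_zero] at h
  have h1 : μ univ = 0 := by
    rw [← union_compl_self (Function.support fun x => R.eval x * R.eval x)]
    exact measure_union_null h h0
  rw [measure_univ] at h1
  exact one_ne_zero h1

/-- The inner product with a polynomial as a linear functional. -/
noncomputable def ip (hμ : IsQuestionMarkMeasure μ) (n : ℕ) (R : ℝ[X]) :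
    Module.Dual ℝ (degreeLT ℝ n) where
  toFun S := ∫ x, R.eval x * (S : ℝ[X]).eval x ∂μ
  map_add' S T := by
    rw [← integral_add (integrable_mul hμ R S) (integrable_mul hμ R T)]
    simp only [Submodule.coe_add, eval_add, mul_add]
  map_smul' c S := by
    simp only [Submodule.coe_smul, eval_smul, smul_eq_mul, RingHom.id_apply]
    rw [← integral_const_mul]
    congr 1
    funext x
    ring

theorem exists_monic (hμ : IsQuestionMarkMeasure μ) (n : ℕ) : ∃ P : ℝ[X], P.Monic ∧
    P.natDegree = n ∧ ∀ S : ℝ[X], S.degree < n → ∫ x, P.eval x * S.eval x ∂μ = 0 := by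
  let B : degreeLT ℝ n →ₗ[ℝ] Module.Dual ℝ (degreeLT ℝ n) :=
    { toFun := fun R => ip hμ n (R : ℝ[X])
      map_add' := by
        intro R R'
        ext S
        change ∫ x, ((R : ℝ[X]) + (R' : ℝ[X])).eval x * (S : ℝ[X]).eval x ∂μ =
          ∫ x, (R : ℝ[X]).eval x * (S : ℝ[X]).eval x ∂μ +
          ∫ x, (R' : ℝ[X]).eval x * (S : ℝ[X]).eval x ∂μ
        rw [← integral_add (integrable_mul hμ _ _) (integrable_mul hμ _ _)]
        simp only [eval_add, add_mul]
      map_smul' := by
        intro c R
        ext S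
        change ∫ x, (c • (R : ℝ[X])).eval x * (S : ℝ[X]).eval x ∂μ =
          c * ∫ x, (R : ℝ[X]).eval x * (S : ℝ[X]).eval x ∂μ
        rw [← integral_const_mul]
        simp only [eval_smul, smul_eq_mul, mul_assoc] }
  have hinj : Function.Injective B := by
    rw [injective_iff_map_eq_zero]
    intro R hR
    by_contra hne
    have h1 : (R : ℝ[X]) ≠ 0 := fun h => hne (by ext1; exact h)
    have h2 := integral_sq_pos hμ h1
    have h3 : B R R = 0 := by rw [hR]; rfl
    have h4 : B R R = ∫ x, (R : ℝ[X]).eval x * (R : ℝ[X]).eval x ∂μ := rfl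
    linarith
  have : FiniteDimensional ℝ (degreeLT ℝ n) :=
    LinearEquiv.finiteDimensional (degreeLTEquiv ℝ n).symm
  have hsurj : Function.Surjective B :=
    (LinearMap.injective_iff_surjective_of_finrank_eq_finrank
      (Subspace.dual_finrank_eq (K := ℝ) (V := degreeLT ℝ n)).symm).1 hinj
  obtain ⟨R, hR⟩ := hsurj (ip hμ n (X ^ n))
  have hRdeg : (R : ℝ[X]).degree < n := mem_degreeLT.1 R.2
  have hmon : (X ^ n - (R : ℝ[X])).Monic := monic_X_pow_sub hRdeg
  refine ⟨X ^ n - (R : ℝ[X]), hmon, ?_, ?_⟩
  · have h1 : (X ^ n - (R : ℝ[X])).degree = (n : WithBot ℕ) := by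
      rw [degree_sub_eq_left_of_degree_lt (by rwa [degree_X_pow]), degree_X_pow]
    exact natDegree_eq_of_degree_eq_some h1
  · intro S hS
    have h1 := congrArg (fun φ : Module.Dual ℝ (degreeLT ℝ n) => φ ⟨S, mem_degreeLT.2 hS⟩) hR
    have h2 : ∫ x, (R : ℝ[X]).eval x * S.eval x ∂μ = ∫ x, (X ^ n : ℝ[X]).eval x * S.eval x ∂μ := h1
    have h3 : ∀ x, (X ^ n - (R : ℝ[X])).eval x * S.eval x =
        (X ^ n : ℝ[X]).eval x * S.eval x - (R : ℝ[X]).eval x * S.eval x := by
      intro x
      rw [eval_sub, sub_mul]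
    simp only [h3]
    rw [integral_sub (integrable_mul hμ _ _) (integrable_mul hμ _ _), h2, sub_self]

/-- Orthonormal polynomials exist. -/
theorem exists_orthonormal (hμ : IsQuestionMarkMeasure μ) : ∃ p : ℕ → ℝ[X],
    IsOrthonormal μ p := by
  choose P hPm hPd hPo using exists_monic hμ
  have hpos : ∀ n, 0 < ∫ x, (P n).eval x * (P n).eval x ∂μ := fun n =>
    integral_sq_pos hμ (hPm n).ne_zero
  set c : ℕ → ℝ := fun n => (Real.sqrt (∫ x, (P n).eval x * (P n).eval x ∂μ))⁻¹ with hc
  have hcpos : ∀ n, 0 < c n := fun n => inv_pos.2 (Real.sqrt_pos.2 (hpos n))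
  have horth : ∀ m n, m < n → ∫ x, (P n).eval x * (P m).eval x ∂μ = 0 := by
    intro m n hmn
    refine hPo n (P m) ?_
    rw [degree_eq_natDegree (hPm m).ne_zero, hPd]
    exact_mod_cast hmn
  refine ⟨fun n => C (c n) * P n, fun n => ?_, fun n => ?_, fun m n => ?_⟩
  · rw [natDegree_C_mul (hcpos n).ne', hPd]
  · rw [leadingCoeff_mul, leadingCoeff_C, (hPm n).leadingCoeff, mul_one]
    exact hcpos n
  · have e : ∀ x, (C (c m) * P m).eval x * (C (c n) * P n).eval x =
        (c m * c n) * ((P m).eval x * (P n).eval x) := by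
      intro x
      simp only [eval_mul, eval_C]
      ring
    simp only [e]
    rw [integral_const_mul]
    split_ifs with h
    · subst h
      rw [hc]
      simp only
      rw [← mul_inv, Real.mul_self_sqrt (hpos m).le, inv_mul_cancel₀ (hpos m).ne']
    · rcases lt_or_gt_of_ne h with h | h
      · have := horth m n h
        simp only [mul_comm ((P m).eval _)]
        rw [this, mul_zero]
      · rw [horth n m h, mul_zero]

/-- Integration against a polynomial, as a linear map. -/
noncomputable def lin (hμ : IsQuestionMarkMeasure μ) (Q : ℝ[X]) : ℝ[X] →ₗ[ℝ] ℝ where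
  toFun R := ∫ x, R.eval x * Q.eval x ∂μ
  map_add' R S := by
    rw [← integral_add (integrable_mul hμ R Q) (integrable_mul hμ S Q)]
    simp only [eval_add, add_mul]
  map_smul' c R := by
    simp only [eval_smul, smul_eq_mul, RingHom.id_apply]
    rw [← integral_const_mul]
    simp only [mul_assoc]

theorem integral_top_coeff (hμ : IsQuestionMarkMeasure μ) {p : ℕ → ℝ[X]}
    (hp : IsOrthonormal μ p) {R : ℝ[X]} {d : ℕ} (hR : R.natDegree ≤ d) :
    ∫ x, R.eval x * (p d).eval x ∂μ = R.coeff d / (p d).leadingCoeff := by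
  have hprob := hμ.prob
  have hγ := hp.leadingCoeff_pos d
  set c : ℝ := R.coeff d / (p d).leadingCoeff with hcdef
  have hR' : (R - C c * p d).degree < d := by
    rw [degree_lt_iff_coeff_zero]
    intro j hj
    rw [coeff_sub, coeff_C_mul]
    rcases hj.eq_or_lt with rfl | hj
    · have e1 : (p d).coeff d = (p d).leadingCoeff := by
        rw [leadingCoeff, hp.natDegree_eq]
      rw [e1, hcdef]
      field_simp
      ring
    · have e1 : R.coeff j = 0 := coeff_eq_zero_of_natDegree_lt (by omega)
      have e2 : (p d).coeff j = 0 := coeff_eq_zero_of_natDegree_lt (by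
        rw [hp.natDegree_eq]; omega)
      rw [e1, e2]
      ring
  have h0 := orth_lower hμ hp d d le_rfl _ hR'
  have e : ∀ x, R.eval x * (p d).eval x = c * ((p d).eval x * (p d).eval x) +
      (R - C c * p d).eval x * (p d).eval x := by
    intro x
    rw [eval_sub, eval_mul, eval_C]
    ring
  have i1 : Integrable (fun x => c * ((p d).eval x * (p d).eval x)) μ :=
    (integrable_mul hμ _ _).const_mul _
  simp only [e]
  rw [integral_add i1 (integrable_mul hμ _ _), integral_const_mul, hp.integral_mul, h0, if_pos rfl]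
  ring

theorem eq_zero_of_orth (hμ : IsQuestionMarkMeasure μ) {p : ℕ → ℝ[X]}
    (hp : IsOrthonormal μ p) {R : ℝ[X]} {n : ℕ} (hR : R.natDegree ≤ n)
    (h : ∀ k, k ≤ n → ∫ x, R.eval x * (p k).eval x ∂μ = 0) : R = 0 := by
  by_contra hne
  have h1 := integral_top_coeff hμ hp (le_refl R.natDegree)
  rw [h _ hR] at h1
  have h2 := (hp.leadingCoeff_pos R.natDegree).ne'
  have h3 : R.coeff R.natDegree ≠ 0 := leadingCoeff_ne_zero.2 hne
  exact (div_ne_zero h3 h2) h1.symm

/-- The recurrence coefficients exist. -/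
theorem exists_recurrence (hμ : IsQuestionMarkMeasure μ) {p : ℕ → ℝ[X]}
    (hp : IsOrthonormal μ p) : ∃ a b : ℕ → ℝ, IsRecurrence p a b := by
  have hprob := hμ.prob
  set γ : ℕ → ℝ := fun n => (p n).leadingCoeff with hγdef
  have hγ : ∀ n, 0 < γ n := hp.leadingCoeff_pos
  set b : ℕ → ℝ := fun n => ∫ x, (X * p n).eval x * (p n).eval x ∂μ with hb
  set a : ℕ → ℝ := fun n => γ (n - 1) / γ n with ha
  have hco : ∀ n, (p n).coeff n = γ n := by
    intro n
    rw [hγdef]
    simp only
    rw [leadingCoeff, hp.natDegree_eq]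
  have hz : ∀ m j, m < j → (p m).coeff j = 0 := fun m j h =>
    coeff_eq_zero_of_natDegree_lt (by rw [hp.natDegree_eq]; exact h)
  -- inner products of `x p_n` with `p_k`
  have hsymm : ∀ n k, ∫ x, (X * p n).eval x * (p k).eval x ∂μ =
      ∫ x, (X * p k).eval x * (p n).eval x ∂μ := by
    intro n k
    congr 1
    funext x
    simp only [eval_mul, eval_X]
    ring
  have hXdeg : ∀ n, (X * p n).natDegree ≤ n + 1 := by
    intro n
    refine natDegree_mul_le.trans ?_
    rw [natDegree_X, hp.natDegree_eq]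
    omega
  have hsmall : ∀ n k, k + 1 < n → ∫ x, (X * p n).eval x * (p k).eval x ∂μ = 0 := by
    intro n k hk
    rw [hsymm]
    refine orth_lower hμ hp n n le_rfl _ ?_
    refine (degree_le_natDegree).trans_lt ?_
    have := hXdeg k
    exact_mod_cast (by omega)
  have hup : ∀ n, ∫ x, (X * p n).eval x * (p (n + 1)).eval x ∂μ = a (n + 1) := by
    intro n
    rw [integral_top_coeff hμ hp (hXdeg n), coeff_X_mul, hco]
    rfl
  have hdown : ∀ n, ∫ x, (X * p (n + 1)).eval x * (p n).eval x ∂μ = a (n + 1) := by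
    intro n
    rw [hsymm, hup]
  have hint3 : ∀ (R S T : ℝ[X]) (c d : ℝ) (k : ℕ),
      ∫ x, (X * R - (C c * S + C d * T)).eval x * (p k).eval x ∂μ =
      ∫ x, (X * R).eval x * (p k).eval x ∂μ - (c * ∫ x, S.eval x * (p k).eval x ∂μ +
        d * ∫ x, T.eval x * (p k).eval x ∂μ) := by
    intro R S T c d k
    have h : lin hμ (p k) (X * R - (C c * S + C d * T)) = lin hμ (p k) (X * R) -
        (c * lin hμ (p k) S + d * lin hμ (p k) T) := by
      rw [map_sub, map_add, ← smul_eq_C_mul, ← smul_eq_C_mul, map_smul, map_smul]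
      rfl
    exact h
  have hint4 : ∀ (R S T U : ℝ[X]) (c d e : ℝ) (k : ℕ),
      ∫ x, (X * R - (C c * S + C d * T + C e * U)).eval x * (p k).eval x ∂μ =
      ∫ x, (X * R).eval x * (p k).eval x ∂μ - (c * ∫ x, S.eval x * (p k).eval x ∂μ +
        d * ∫ x, T.eval x * (p k).eval x ∂μ + e * ∫ x, U.eval x * (p k).eval x ∂μ) := by
    intro R S T U c d e k
    have h : lin hμ (p k) (X * R - (C c * S + C d * T + C e * U)) = lin hμ (p k) (X * R) -
        (c * lin hμ (p k) S + d * lin hμ (p k) T + e * lin hμ (p k) U) := by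
      rw [map_sub, map_add, map_add, ← smul_eq_C_mul, ← smul_eq_C_mul, ← smul_eq_C_mul, map_smul,
        map_smul, map_smul]
      rfl
    exact h
  refine ⟨a, b, ?_, ?_, ?_⟩
  · intro n hn
    exact div_pos (hγ _) (hγ _)
  · rw [← sub_eq_zero]
    refine eq_zero_of_orth hμ hp (n := 1) ?_ ?_
    · refine (natDegree_sub_le _ _).trans (max_le (hXdeg 0) ?_)
      refine (natDegree_add_le _ _).trans (max_le ?_ ?_)
      · exact (natDegree_C_mul_le _ _).trans (hp.natDegree_eq 1).le
      · exact (natDegree_C_mul_le _ _).trans ((hp.natDegree_eq 0).le.trans (by norm_num))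
    · intro k hk
      rw [hint3, hp.integral_mul, hp.integral_mul]
      interval_cases k
      · rw [if_neg (by norm_num), if_pos rfl]
        simp [hb]
      · rw [if_pos rfl, if_neg (by norm_num), hup 0]
        simp
  · intro n
    rw [← sub_eq_zero]
    refine eq_zero_of_orth hμ hp (n := n + 2) ?_ ?_
    · refine (natDegree_sub_le _ _).trans (max_le (hXdeg (n + 1)) ?_)
      refine (natDegree_add_le _ _).trans (max_le ((natDegree_add_le _ _).trans (max_le ?_ ?_)) ?_)
      · exact (natDegree_C_mul_le _ _).trans (hp.natDegree_eq _).le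
      · exact (natDegree_C_mul_le _ _).trans ((hp.natDegree_eq _).le.trans (by omega))
      · exact (natDegree_C_mul_le _ _).trans ((hp.natDegree_eq _).le.trans (by omega))
    · intro k hk
      rw [hint4, hp.integral_mul, hp.integral_mul, hp.integral_mul]
      rcases Nat.lt_or_ge k n with h1 | h1
      · rw [if_neg (by omega), if_neg (by omega), if_neg (by omega), hsmall _ _ (by omega)]
        ring
      · have hcases : k = n ∨ k = n + 1 ∨ k = n + 2 := by omega
        rcases hcases with rfl | rfl | rfl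
        · rw [if_neg (by omega), if_neg (by omega), if_pos rfl, hdown]
          ring
        · rw [if_neg (by omega), if_pos rfl, if_neg (by omega)]
          simp [hb]
        · rw [if_pos rfl, if_neg (by omega), if_neg (by omega), hup (n + 1)]
          ring

end poly

end Pool.Agent.Lib_helper93.Mink
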