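import Pool.Agent.Lib_helper93.Mink.NodeLog

open MeasureTheory Set Filter
open scoped Topology ENNReal

namespace Pool.Agent.Lib_helper93.Mink

/-- Left end of a quadruple. -/
noncomputable def lo (t : ℕ × ℕ × ℕ × ℕ) : ℝ := (t.1 : ℝ) / t.2.1
/-- Right end of a quadruple. -/
noncomputable def hi (t : ℕ × ℕ × ℕ × ℕ) : ℝ := (t.2.2.1 : ℝ) / t.2.2.2
/-- Interval of a quadruple. -/
noncomputable def iv (t : ℕ × ℕ × ℕ × ℕ) : Set ℝ := Node.ivl t.1 t.2.1 t.2.2.1 t.2.2.2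

theorem iv_eq (t : ℕ × ℕ × ℕ × ℕ) : iv t = Ioc (lo t) (hi t) := rfl

/-- A good quadruple for the Farey partition of order `N`. -/
def IsFarey (N : ℕ) (t : ℕ × ℕ × ℕ × ℕ) : Prop :=
  ∃ m, Node t.1 t.2.1 t.2.2.1 t.2.2.2 m ∧ t.2.1 ≤ N ∧ t.2.2.2 ≤ N ∧ N < t.2.1 + t.2.2.2

theorem exists_farey (N : ℕ) (k : ℕ) : ∀ {p q p' q' m : ℕ} (_ : Node p q p' q' m) (_ : q ≤ N)
    (_ : q' ≤ N) (_ : 2 * N < q + q' + k), ∃ F : Finset (ℕ × ℕ × ℕ × ℕ),
      (∀ t ∈ F, IsFarey N t) ∧ (F : Set (ℕ × ℕ × ℕ × ℕ)).PairwiseDisjoint iv ∧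
      (⋃ t ∈ F, iv t) = Node.ivl p q p' q' ∧
      ∀ G : ℝ → ℝ, ∑ t ∈ F, (G (hi t) - G (lo t)) = G ((p' : ℝ) / q') - G ((p : ℝ) / q) := by
  classical
  induction k with
  | zero =>
    intro p q p' q' m h hq hq' hk
    omega
  | succ k ih =>
    intro p q p' q' m h hq hq' hk
    have hqp := h.q_pos
    rcases lt_or_ge N (q + q') with hN | hN
    · refine ⟨{(p, q, p', q')}, ?_, ?_, ?_, ?_⟩
      · intro t ht
        rw [Finset.mem_singleton] at ht
        subst ht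
        exact ⟨m, h, hq, hq', hN⟩
      · simp
      · simp [iv]
      · intro G
        simp [lo, hi]
    · obtain ⟨F1, h1, h2, h3, h4⟩ := ih h.left hq hN (by omega)
      obtain ⟨F2, g1, g2, g3, g4⟩ := ih h.right hN hq' (by omega)
      have hdisj : ∀ t ∈ F1, ∀ s ∈ F2, Disjoint (iv t) (iv s) := by
        intro t ht s hs
        have a1 : iv t ⊆ Node.ivl p q (p + p') (q + q') := by
          rw [← h3]; exact subset_biUnion_of_mem (u := fun t => iv t) ht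
        have a2 : iv s ⊆ Node.ivl (p + p') (q + q') p' q' := by
          rw [← g3]; exact subset_biUnion_of_mem (u := fun t => iv t) hs
        exact Node.ivl_disjoint.mono a1 a2
      have hne : ∀ t ∈ F1, (iv t).Nonempty := by
        intro t ht
        obtain ⟨m', hm', -⟩ := h1 t ht
        exact ⟨hi t, hm'.lt, le_rfl⟩
      have hFdisj : Disjoint F1 F2 := by
        rw [Finset.disjoint_left]
        intro t ht ht'
        have := hdisj t ht t ht'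
        rw [disjoint_self] at this
        exact (hne t ht).ne_empty this
      refine ⟨F1 ∪ F2, ?_, ?_, ?_, ?_⟩
      · intro t ht
        rcases Finset.mem_union.1 ht with ht | ht
        · exact h1 t ht
        · exact g1 t ht
      · rw [Finset.coe_union]
        refine (Set.pairwiseDisjoint_union).2 ⟨h2, g2, fun t ht s hs _ => hdisj t ht s hs⟩
      · rw [Finset.set_biUnion_union, h3, g3, h.ivl_eq_union]
      · intro G
        rw [Finset.sum_union hFdisj, h4, g4]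
        ring

/-- The Farey partition. -/
theorem exists_partition (N : ℕ) (hN : 1 ≤ N) : ∃ F : Finset (ℕ × ℕ × ℕ × ℕ),
      (∀ t ∈ F, IsFarey N t) ∧ (F : Set (ℕ × ℕ × ℕ × ℕ)).PairwiseDisjoint iv ∧
      (⋃ t ∈ F, iv t) = Ioc 0 1 ∧
      ∀ G : ℝ → ℝ, ∑ t ∈ F, (G (hi t) - G (lo t)) = G 1 - G 0 := by
  obtain ⟨F, h1, h2, h3, h4⟩ := exists_farey N (2 * N) Node.root hN hN (by omega)
  refine ⟨F, h1, h2, ?_, ?_⟩
  · rw [h3]; simp [Node.ivl]
  · intro G
    rw [h4]; simp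

theorem IsFarey.length {N : ℕ} {t : ℕ × ℕ × ℕ × ℕ} (h : IsFarey N t) (hN : 1 ≤ N) :
    1 / (N : ℝ) ^ 2 ≤ hi t - lo t ∧ hi t - lo t ≤ 1 / N := by
  obtain ⟨m, hm, h1, h2, h3⟩ := h
  have hs := hm.sub_eq
  have hq := hm.q_pos
  unfold hi lo
  rw [hs]
  have hq1 : (1 : ℝ) ≤ t.2.1 := by exact_mod_cast hq.1
  have hq2 : (1 : ℝ) ≤ t.2.2.2 := by exact_mod_cast hq.2
  have hN' : (1 : ℝ) ≤ N := by exact_mod_cast hN
  have h1' : (t.2.1 : ℝ) ≤ N := by exact_mod_cast h1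
  have h2' : (t.2.2.2 : ℝ) ≤ N := by exact_mod_cast h2
  have h3' : (N : ℝ) + 1 ≤ t.2.1 + t.2.2.2 := by exact_mod_cast h3
  constructor
  · apply one_div_le_one_div_of_le (by positivity)
    rw [sq]
    gcongr
  · apply one_div_le_one_div_of_le (by positivity)
    nlinarith [mul_nonneg (sub_nonneg.2 hq1) (sub_nonneg.2 hq2)]

theorem IsFarey.bounds {N : ℕ} {t : ℕ × ℕ × ℕ × ℕ} (h : IsFarey N t) : 0 ≤ lo t ∧ lo t < hi t ∧
    hi t ≤ 1 := by
  obtain ⟨m, hm, h1, h2, h3⟩ := h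
  exact ⟨hm.nonneg, hm.lt, hm.le_one⟩

end Pool.Agent.Lib_helper93.Mink
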