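import Pool.Agent.Lib_helper93.Mink.QM

open MeasureTheory Set Filter
open scoped Topology ENNReal

namespace Pool.Agent.Lib_helper93.Mink

/-- Nodes `[p/q, p'/q']` of the Stern–Brocot tree of `[0,1]`, `m` being the depth. -/
inductive Node : ℕ → ℕ → ℕ → ℕ → ℕ → Prop
  | root : Node 0 1 1 1 0
  | left {p q p' q' m : ℕ} : Node p q p' q' m → Node p q (p + p') (q + q') (m + 1)
  | right {p q p' q' m : ℕ} : Node p q p' q' m → Node (p + p') (q + q') p' q' (m + 1)

namespace Node

variable {p q p' q' m : ℕ}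

theorem det (h : Node p q p' q' m) : p' * q = p * q' + 1 := by
  induction h with
  | root => rfl
  | left _ ih => nlinarith
  | right _ ih => nlinarith

theorem q_pos (h : Node p q p' q' m) : 1 ≤ q ∧ 1 ≤ q' := by
  induction h with
  | root => simp
  | left _ ih => exact ⟨ih.1, by omega⟩
  | right _ ih => exact ⟨by omega, ih.2⟩

theorem sub_eq (h : Node p q p' q' m) : (p' : ℝ) / q' - (p : ℝ) / q = 1 / (q * q') := by
  have h1 := h.q_pos
  have h2 : ((p' * q : ℕ) : ℝ) = ((p * q' + 1 : ℕ) : ℝ) := by rw [h.det]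
  push_cast at h2
  have hq : (q : ℝ) ≠ 0 := by
    have := h1.1
    positivity
  have hq' : (q' : ℝ) ≠ 0 := by
    have := h1.2
    positivity
  field_simp
  linarith

theorem lt (h : Node p q p' q' m) : (p : ℝ) / q < (p' : ℝ) / q' := by
  have h1 := h.sub_eq
  have h2 := h.q_pos
  have : (0 : ℝ) < 1 / (q * q') := by
    have := h2.1
    have := h2.2
    positivity
  linarith

theorem nonneg (_ : Node p q p' q' m) : (0 : ℝ) ≤ (p : ℝ) / q := by positivity

theorem le_one (h : Node p q p' q' m) : (p' : ℝ) / q' ≤ 1 := by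
  have : p' ≤ q' ∧ p ≤ q := by
    induction h with
    | root => simp
    | left _ ih => exact ⟨by omega, by omega⟩
    | right _ ih => exact ⟨by omega, by omega⟩
  have h3 := h.q_pos.2
  rw [div_le_one (by positivity)]
  exact_mod_cast this.1

theorem mediant_sub_left (h : Node p q p' q' m) :
    ((p + p' : ℕ) : ℝ) / ((q + q' : ℕ) : ℝ) - (p : ℝ) / q = 1 / (q * (q + q')) := by
  have := h.left.sub_eq
  push_cast at this ⊢
  exact this

theorem sub_mediant_right (h : Node p q p' q' m) :
    (p' : ℝ) / q' - ((p + p' : ℕ) : ℝ) / ((q + q' : ℕ) : ℝ) = 1 / ((q + q') * q') := by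
  have := h.right.sub_eq
  push_cast at this ⊢
  exact this

/-- The question mark function is affine along nodes. -/
theorem affine (h : Node p q p' q' m) : ∃ c : ℝ, 0 ≤ c ∧ ∀ x ∈ Icc (0 : ℝ) 1,
    questionMark ((p * (1 - x) + p' * x) / (q * (1 - x) + q' * x)) = c + questionMark x / 2 ^ m := by
  induction h with
  | root =>
    refine ⟨0, le_rfl, fun x _ => ?_⟩
    have : (((0 : ℕ) : ℝ) * (1 - x) + ((1 : ℕ) : ℝ) * x) / (((1 : ℕ) : ℝ) * (1 - x) +
      ((1 : ℕ) : ℝ) * x) = x := by
      push_cast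
      rw [show (1 : ℝ) * (1 - x) + 1 * x = 1 by ring]
      ring
    rw [this]
    simp
  | @left p q p' q' m hN ih =>
    obtain ⟨c, hc0, hc⟩ := ih
    refine ⟨c, hc0, fun x hx => ?_⟩
    have hm : x / (1 + x) ∈ Icc (0 : ℝ) 1 := by
      have : 0 < 1 + x := by linarith [hx.1]
      exact ⟨div_nonneg hx.1 this.le, by rw [div_le_one this]; linarith⟩
    have h1 := hc (x / (1 + x)) hm
    rw [questionMark_left hx] at h1
    have hx1 : (1 + x) ≠ 0 := by linarith [hx.1]
    have e : ((p : ℝ) * (1 - x / (1 + x)) + p' * (x / (1 + x))) /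
        (q * (1 - x / (1 + x)) + q' * (x / (1 + x))) =
        (p * (1 - x) + ((p + p' : ℕ) : ℝ) * x) / (q * (1 - x) + ((q + q' : ℕ) : ℝ) * x) := by
      have e1 : (p : ℝ) * (1 - x / (1 + x)) + p' * (x / (1 + x)) = (p + p' * x) / (1 + x) := by
        field_simp
        ring
      have e2 : (q : ℝ) * (1 - x / (1 + x)) + q' * (x / (1 + x)) = (q + q' * x) / (1 + x) := by
        field_simp
        ring
      rw [e1, e2, div_div_div_cancel_right₀ hx1]
      push_cast
      congr 1 <;> ring
    rw [← e, h1, pow_succ]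
    ring
  | @right p q p' q' m hN ih =>
    obtain ⟨c, hc0, hc⟩ := ih
    refine ⟨c + 1 / 2 ^ (m + 1), by positivity, fun x hx => ?_⟩
    have h2x : 0 < 2 - x := by linarith [hx.2]
    have hm : 1 / (2 - x) ∈ Icc (0 : ℝ) 1 := by
      exact ⟨by positivity, by rw [div_le_one h2x]; linarith [hx.2]⟩
    have h1 := hc (1 / (2 - x)) hm
    rw [questionMark_right hx] at h1
    have e : ((p : ℝ) * (1 - 1 / (2 - x)) + p' * (1 / (2 - x))) /
        (q * (1 - 1 / (2 - x)) + q' * (1 / (2 - x))) =
        (((p + p' : ℕ) : ℝ) * (1 - x) + p' * x) / (((q + q' : ℕ) : ℝ) * (1 - x) + q' * x) := by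
      have e1 : (p : ℝ) * (1 - 1 / (2 - x)) + p' * (1 / (2 - x)) =
          (p * (1 - x) + p') / (2 - x) := by
        field_simp
        ring
      have e2 : (q : ℝ) * (1 - 1 / (2 - x)) + q' * (1 / (2 - x)) =
          (q * (1 - x) + q') / (2 - x) := by
        field_simp
        ring
      rw [e1, e2, div_div_div_cancel_right₀ h2x.ne']
      push_cast
      congr 1 <;> ring
    rw [← e, h1, pow_succ]
    ring

theorem questionMark_ends (h : Node p q p' q' m) :
    0 ≤ questionMark ((p : ℝ) / q) ∧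
    questionMark ((p' : ℝ) / q') - questionMark ((p : ℝ) / q) = 1 / 2 ^ m := by
  obtain ⟨c, hc0, hc⟩ := h.affine
  have h0 := hc 0 (by simp)
  have h1 := hc 1 (by simp)
  rw [questionMark_zero] at h0
  rw [questionMark_one] at h1
  simp only [sub_zero, mul_one, mul_zero, add_zero, sub_self, zero_add, zero_div] at h0 h1
  rw [h0, h1]
  exact ⟨hc0, by ring⟩

/-- The half-open interval of a node. -/
def ivl (p q p' q' : ℕ) : Set ℝ := Ioc ((p : ℝ) / q) ((p' : ℝ) / q')

/-- The interval of a node is the union of the intervals of its children. -/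
theorem ivl_eq_union (h : Node p q p' q' m) :
    ivl p q p' q' = ivl p q (p + p') (q + q') ∪ ivl (p + p') (q + q') p' q' := by
  unfold ivl
  rw [Ioc_union_Ioc_eq_Ioc h.left.lt.le h.right.lt.le]

theorem ivl_disjoint : Disjoint (ivl p q (p + p') (q + q')) (ivl (p + p') (q + q') p' q') := by
  unfold ivl
  rw [Set.disjoint_left]
  rintro x ⟨_, h1⟩ ⟨h2, _⟩
  linarith

end Node

section measure

variable {μ : Measure ℝ}

theorem IsQuestionMarkMeasure.compl (hμ : IsQuestionMarkMeasure μ) : μ (Icc 0 1)ᶜ = 0 := by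
  have := hμ.prob
  rw [prob_compl_eq_zero_iff measurableSet_Icc, hμ.cdf 1 (by simp), questionMark_one]
  simp

theorem IsQuestionMarkMeasure.measure_Ioc (hμ : IsQuestionMarkMeasure μ) {a b : ℝ} (ha : 0 ≤ a)
    (hab : a ≤ b) (hb : b ≤ 1) (hq : 0 ≤ questionMark a) : μ (Ioc a b) =
      ENNReal.ofReal (questionMark b - questionMark a) := by
  have := hμ.prob
  have h1 : Ioc a b = Icc 0 b \ Icc 0 a := by
    ext x
    constructor
    · rintro ⟨h1, h2⟩
      exact ⟨⟨by linarith, h2⟩, fun h3 => absurd h3.2 (not_le.2 h1)⟩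
    · rintro ⟨⟨h1, h2⟩, h3⟩
      exact ⟨not_le.1 fun h4 => h3 ⟨h1, h4⟩, h2⟩
  rw [h1, measure_sdiff (Icc_subset_Icc_right hab) measurableSet_Icc.nullMeasurableSet
    (measure_ne_top _ _), hμ.cdf b ⟨by linarith, hb⟩, hμ.cdf a ⟨ha, by linarith⟩,
    ENNReal.ofReal_sub _ hq]

theorem IsQuestionMarkMeasure.measure_ivl (hμ : IsQuestionMarkMeasure μ) {p q p' q' m : ℕ}
    (h : Node p q p' q' m) : μ.real (Node.ivl p q p' q') = 1 / 2 ^ m := by
  have h1 := h.questionMark_ends
  unfold Node.ivl Measure.real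
  rw [hμ.measure_Ioc h.nonneg h.lt.le h.le_one h1.1, h1.2, ENNReal.toReal_ofReal (by positivity)]

/-- One sided estimate, at the left end. -/
theorem IsQuestionMarkMeasure.left_end (hμ : IsQuestionMarkMeasure μ) (k : ℕ) :
    ∀ {p q p' q' m : ℕ} (_ : Node p q p' q' m) (D : ℕ) (_ : q ≤ D) (_ : q' ≤ D) (b : ℝ),
      b - (p : ℝ) / q < 1 / ((D : ℝ) ^ 2 * 4 ^ k) →
      μ.real (Node.ivl p q p' q' ∩ Iic b) ≤ 1 / 2 ^ k * (1 / 2 ^ m) := by
  have := hμ.prob
  induction k with
  | zero =>
    intro p q p' q' m h D _ _ b _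
    refine (measureReal_mono inter_subset_left).trans ?_
    rw [hμ.measure_ivl h]
    simp
  | succ k ih =>
    intro p q p' q' m h D hq hq' b hb
    have hqp := h.q_pos
    have hD : (1 : ℝ) ≤ D := by exact_mod_cast hqp.1.trans hq
    have hq1 : (1 : ℝ) ≤ q := by exact_mod_cast hqp.1
    have hq1' : (1 : ℝ) ≤ q' := by exact_mod_cast hqp.2
    have hqD : (q : ℝ) ≤ D := by exact_mod_cast hq
    have hqD' : (q' : ℝ) ≤ D := by exact_mod_cast hq'
    have hmed := h.mediant_sub_left
    have hbm : b ≤ ((p + p' : ℕ) : ℝ) / ((q + q' : ℕ) : ℝ) := by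
      have h1 : 1 / ((D : ℝ) ^ 2 * 4 ^ (k + 1)) ≤ 1 / (q * (q + q')) := by
        apply one_div_le_one_div_of_le (by positivity)
        have h4 : (4 : ℝ) ≤ 4 ^ (k + 1) := by
          have : (1 : ℝ) ≤ 4 ^ k := one_le_pow₀ (by norm_num)
          rw [pow_succ]
          linarith
        have h5 : (q : ℝ) * (q + q') ≤ D * (D + D) := by gcongr
        have h6 : (D : ℝ) ^ 2 * 4 ≤ (D : ℝ) ^ 2 * 4 ^ (k + 1) := by gcongr
        nlinarith
      linarith
    have hsub : Node.ivl p q p' q' ∩ Iic b ⊆ Node.ivl p q (p + p') (q + q') ∩ Iic b := by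
      rintro x ⟨hx, hxb⟩
      exact ⟨⟨hx.1, le_trans hxb hbm⟩, hxb⟩
    refine (measureReal_mono hsub).trans ?_
    refine (ih h.left (2 * D) (by omega) (by omega) b ?_).trans ?_
    · refine hb.trans_le (le_of_eq ?_)
      push_cast
      rw [pow_succ 4 k]
      ring
    · rw [pow_succ, pow_succ]
      apply le_of_eq
      ring

/-- One sided estimate, at the right end. -/
theorem IsQuestionMarkMeasure.right_end (hμ : IsQuestionMarkMeasure μ) (k : ℕ) :
    ∀ {p q p' q' m : ℕ} (_ : Node p q p' q' m) (D : ℕ) (_ : q ≤ D) (_ : q' ≤ D) (a : ℝ),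
      (p' : ℝ) / q' - a < 1 / ((D : ℝ) ^ 2 * 4 ^ k) →
      μ.real (Node.ivl p q p' q' ∩ Ici a) ≤ 1 / 2 ^ k * (1 / 2 ^ m) := by
  have := hμ.prob
  induction k with
  | zero =>
    intro p q p' q' m h D _ _ b _
    refine (measureReal_mono inter_subset_left).trans ?_
    rw [hμ.measure_ivl h]
    simp
  | succ k ih =>
    intro p q p' q' m h D hq hq' a ha
    have hqp := h.q_pos
    have hD : (1 : ℝ) ≤ D := by exact_mod_cast hqp.1.trans hq
    have hq1 : (1 : ℝ) ≤ q := by exact_mod_cast hqp.1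
    have hq1' : (1 : ℝ) ≤ q' := by exact_mod_cast hqp.2
    have hqD : (q : ℝ) ≤ D := by exact_mod_cast hq
    have hqD' : (q' : ℝ) ≤ D := by exact_mod_cast hq'
    have hmed := h.sub_mediant_right
    have ham : ((p + p' : ℕ) : ℝ) / ((q + q' : ℕ) : ℝ) < a := by
      have h1 : 1 / ((D : ℝ) ^ 2 * 4 ^ (k + 1)) ≤ 1 / ((q + q') * q') := by
        apply one_div_le_one_div_of_le (by positivity)
        have h4 : (4 : ℝ) ≤ 4 ^ (k + 1) := by
          have : (1 : ℝ) ≤ 4 ^ k := one_le_pow₀ (by norm_num)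
          rw [pow_succ]
          linarith
        have h5 : ((q : ℝ) + q') * q' ≤ (D + D) * D := by gcongr
        have h6 : (D : ℝ) ^ 2 * 4 ≤ (D : ℝ) ^ 2 * 4 ^ (k + 1) := by gcongr
        nlinarith
      linarith
    have hsub : Node.ivl p q p' q' ∩ Ici a ⊆ Node.ivl (p + p') (q + q') p' q' ∩ Ici a := by
      rintro x ⟨hx, hxb⟩
      exact ⟨⟨lt_of_lt_of_le ham hxb, hx.2⟩, hxb⟩
    refine (measureReal_mono hsub).trans ?_
    refine (ih h.right (2 * D) (by omega) (by omega) a ?_).trans ?_
    · refine ha.trans_le (le_of_eq ?_)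
      push_cast
      rw [pow_succ 4 k]
      ring
    · rw [pow_succ, pow_succ]
      apply le_of_eq
      ring

/-- Two sided estimate. -/
theorem IsQuestionMarkMeasure.local_est (hμ : IsQuestionMarkMeasure μ) (k : ℕ) :
    ∀ {p q p' q' m : ℕ} (_ : Node p q p' q' m) (D : ℕ) (_ : q ≤ D) (_ : q' ≤ D) (a b : ℝ),
      b - a < 1 / ((D : ℝ) ^ 2 * 4 ^ k) →
      μ.real (Node.ivl p q p' q' ∩ Icc a b) ≤ 2 * (1 / 2 ^ k * (1 / 2 ^ m)) := by
  have := hμ.prob
  induction k with
  | zero =>
    intro p q p' q' m h D _ _ a b _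
    refine (measureReal_mono inter_subset_left).trans ?_
    rw [hμ.measure_ivl h]
    simp only [pow_zero, div_one, one_mul]
    have : (0 : ℝ) < 1 / 2 ^ m := by positivity
    linarith
  | succ k ih =>
    intro p q p' q' m h D hq hq' a b hab
    have hab' : b - a < 1 / (((2 * D : ℕ) : ℝ) ^ 2 * 4 ^ k) := by
      refine hab.trans_le (le_of_eq ?_)
      push_cast
      rw [pow_succ 4 k]
      ring
    rw [h.ivl_eq_union, union_inter_distrib_right]
    refine (measureReal_union_le _ _).trans ?_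
    set r := ((p + p' : ℕ) : ℝ) / ((q + q' : ℕ) : ℝ) with hr
    rcases le_or_gt b r with hbr | hbr
    · have h2 : Node.ivl (p + p') (q + q') p' q' ∩ Icc a b = ∅ := by
        rw [eq_empty_iff_forall_notMem]
        rintro x ⟨hx, hxb⟩
        have h3 : r < x := hx.1
        linarith [hxb.2]
      rw [h2, measureReal_empty, add_zero]
      refine (ih h.left (2 * D) (by omega) (by omega) a b hab').trans ?_
      rw [pow_succ, pow_succ]
      apply le_of_eq
      ring
    · rcases le_or_gt a r with har | har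
      · have h2 : Node.ivl p q (p + p') (q + q') ∩ Icc a b ⊆
            Node.ivl p q (p + p') (q + q') ∩ Ici a := inter_subset_inter_right _ (fun x hx => hx.1)
        have h3 : Node.ivl (p + p') (q + q') p' q' ∩ Icc a b ⊆
            Node.ivl (p + p') (q + q') p' q' ∩ Iic b :=
          inter_subset_inter_right _ (fun x hx => hx.2)
        have h4 := (measureReal_mono (μ := μ) h2).trans
          (hμ.right_end k h.left (2 * D) (by omega) (by omega) a (by linarith))
        have h5 := (measureReal_mono (μ := μ) h3).trans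
          (hμ.left_end k h.right (2 * D) (by omega) (by omega) b (by linarith))
        refine (add_le_add h4 h5).trans ?_
        rw [pow_succ, pow_succ]
        apply le_of_eq
        ring
      · have h2 : Node.ivl p q (p + p') (q + q') ∩ Icc a b = ∅ := by
          rw [eq_empty_iff_forall_notMem]
          rintro x ⟨hx, hxb⟩
          have h3 : x ≤ r := hx.2
          linarith [hxb.1]
        rw [h2, measureReal_empty, zero_add]
        refine (ih h.right (2 * D) (by omega) (by omega) a b hab').trans ?_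
        rw [pow_succ, pow_succ]
        apply le_of_eq
        ring

end measure

end Pool.Agent.Lib_helper93.Mink
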