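import Pool.Agent.Lib_helper93.Mink.Node

open MeasureTheory Set Filter
open scoped Topology ENNReal

namespace Pool.Agent.Lib_helper93.Mink

/-- The (nonnegative part of the) logarithmic kernel. -/
noncomputable def L (z x : ℝ) : ℝ≥0∞ := ENNReal.ofReal (-Real.log |x - z|)

theorem measurable_L (z : ℝ) : Measurable (L z) := by
  unfold L
  exact ENNReal.measurable_ofReal.comp
    ((Real.measurable_log.comp ((measurable_id.sub_const z).abs)).neg)

/-- Bound for the logarithmic kernel on a node. -/
noncomputable def MD (D : ℕ) : ℝ := Real.log (4 * (D : ℝ) ^ 2) + 4 * Real.log 4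

theorem L_le {D : ℕ} (hD : 1 ≤ D) (z x : ℝ) : L z x ≤ ENNReal.ofReal (Real.log (4 * (D : ℝ) ^ 2)) +
    ∑' k : ℕ, (Icc (z - 1 / (4 * (D : ℝ) ^ 2 * 4 ^ k)) (z + 1 / (4 * (D : ℝ) ^ 2 * 4 ^ k))).indicator
      (fun _ => ENNReal.ofReal (Real.log 4)) x := by
  have hD' : (1 : ℝ) ≤ D := by exact_mod_cast hD
  set t : ℕ → ℝ := fun k => 1 / (4 * (D : ℝ) ^ 2 * 4 ^ k) with ht
  have htpos : ∀ k, 0 < t k := fun k => by positivity
  have hlog4 : 0 ≤ Real.log 4 := Real.log_nonneg (by norm_num)
  rcases eq_or_ne x z with rfl | hxz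
  · unfold L
    simp
  have hδ : 0 < |x - z| := abs_pos.2 (sub_ne_zero.2 hxz)
  unfold L
  rcases lt_or_ge (t 0) |x - z| with h0 | h0
  · refine le_trans ?_ le_self_add
    apply ENNReal.ofReal_le_ofReal
    have : Real.log (t 0) ≤ Real.log |x - z| := Real.log_le_log (htpos 0) h0.le
    rw [ht] at this
    simp only [pow_zero, mul_one, one_div, Real.log_inv] at this
    linarith
  · -- find the scale
    have htend : Tendsto t atTop (𝓝 0) := by
      have h1 : Tendsto (fun k : ℕ => (1 / (4 * (D : ℝ) ^ 2)) * (1 / 4) ^ k) atTop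
          (𝓝 ((1 / (4 * (D : ℝ) ^ 2)) * 0)) :=
        (tendsto_pow_atTop_nhds_zero_of_lt_one (by norm_num) (by norm_num)).const_mul _
      rw [mul_zero] at h1
      refine h1.congr fun k => ?_
      rw [ht]
      simp only [one_div, mul_inv, inv_pow]
    have hex : ∃ n, t n < |x - z| := (htend.eventually (gt_mem_nhds hδ)).exists
    classical
    set n := Nat.find hex with hn
    have hn1 : t n < |x - z| := Nat.find_spec hex
    have hn0 : n ≠ 0 := by
      intro h
      rw [h] at hn1
      linarith
    obtain ⟨N, hN⟩ := Nat.exists_eq_succ_of_ne_zero hn0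
    have hlow : ∀ k ∈ Finset.range n, |x - z| ≤ t k := by
      intro k hk
      have := Nat.find_min hex (Finset.mem_range.1 hk)
      linarith
    have hsum : ∑ k ∈ Finset.range n, (Icc (z - t k) (z + t k)).indicator
        (fun _ => ENNReal.ofReal (Real.log 4)) x ≤ ∑' k : ℕ, (Icc (z - t k) (z + t k)).indicator
        (fun _ => ENNReal.ofReal (Real.log 4)) x := ENNReal.sum_le_tsum _
    have hsum2 : ∑ k ∈ Finset.range n, (Icc (z - t k) (z + t k)).indicator
        (fun _ => ENNReal.ofReal (Real.log 4)) x = n * ENNReal.ofReal (Real.log 4) := by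
      rw [Finset.sum_congr rfl (g := fun _ => ENNReal.ofReal (Real.log 4))]
      · simp
      · intro k hk
        have := abs_le.1 (hlow k hk)
        exact indicator_of_mem (show x ∈ Icc (z - t k) (z + t k) from
          ⟨by linarith [this.1], by linarith [this.2]⟩) _
    refine le_trans ?_ (add_le_add_right hsum _)
    rw [hsum2, ← ENNReal.ofReal_natCast, ← ENNReal.ofReal_mul (by positivity),
      ← ENNReal.ofReal_add (Real.log_nonneg (by nlinarith)) (by positivity)]
    apply ENNReal.ofReal_le_ofReal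
    have h2 : Real.log (t n) ≤ Real.log |x - z| := Real.log_le_log (htpos n) hn1.le
    have h3 : Real.log (t n) = -(Real.log (4 * (D : ℝ) ^ 2) + n * Real.log 4) := by
      rw [ht]
      simp only [one_div, Real.log_inv]
      rw [Real.log_mul (by positivity) (by positivity), Real.log_pow]
    linarith

theorem IsQuestionMarkMeasure.lintegral_L {μ : Measure ℝ} (hμ : IsQuestionMarkMeasure μ)
    {p q p' q' m : ℕ} (h : Node p q p' q' m) {D : ℕ} (hq : q ≤ D) (hq' : q' ≤ D) (z : ℝ) :
    ∫⁻ x in Node.ivl p q p' q', L z x ∂μ ≤ ENNReal.ofReal (MD D) * μ (Node.ivl p q p' q') := by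
  have := hμ.prob
  have hD : 1 ≤ D := h.q_pos.1.trans hq
  have hD' : (1 : ℝ) ≤ D := by exact_mod_cast hD
  have hlog4 : 0 ≤ Real.log 4 := Real.log_nonneg (by norm_num)
  have hlogD : 0 ≤ Real.log (4 * (D : ℝ) ^ 2) := Real.log_nonneg (by nlinarith)
  set J := Node.ivl p q p' q' with hJ
  have hJm : MeasurableSet J := measurableSet_Ioc
  set t : ℕ → ℝ := fun k => 1 / (4 * (D : ℝ) ^ 2 * 4 ^ k) with ht
  have htpos : ∀ k, 0 < t k := fun k => by positivity
  have hμJ : μ J = ENNReal.ofReal (1 / 2 ^ m) := by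
    rw [← hμ.measure_ivl h, ofReal_measureReal]
  calc ∫⁻ x in J, L z x ∂μ ≤ ∫⁻ x in J, (ENNReal.ofReal (Real.log (4 * (D : ℝ) ^ 2)) +
      ∑' k : ℕ, (Icc (z - t k) (z + t k)).indicator
      (fun _ => ENNReal.ofReal (Real.log 4)) x) ∂μ := lintegral_mono fun x => L_le hD z x
    _ = ENNReal.ofReal (Real.log (4 * (D : ℝ) ^ 2)) * μ J +
        ∑' k : ℕ, ENNReal.ofReal (Real.log 4) * μ (J ∩ Icc (z - t k) (z + t k)) := by
      rw [lintegral_add_left measurable_const, setLIntegral_const, lintegral_tsum]
      · congr 1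
        refine tsum_congr fun k => ?_
        rw [lintegral_indicator_const measurableSet_Icc, Measure.restrict_apply measurableSet_Icc,
          inter_comm]
      · intro k
        exact (measurable_const.indicator measurableSet_Icc).aemeasurable
    _ ≤ ENNReal.ofReal (Real.log (4 * (D : ℝ) ^ 2)) * μ J +
        ∑' k : ℕ, ENNReal.ofReal (Real.log 4 * (2 * (1 / 2 ^ k * (1 / 2 ^ m)))) := by
      gcongr with k
      rw [ENNReal.ofReal_mul hlog4]
      gcongr
      rw [← ofReal_measureReal]
      apply ENNReal.ofReal_le_ofReal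
      refine hμ.local_est k h D hq hq' _ _ ?_
      have e1 : z + t k - (z - t k) = 2 * t k := by ring
      rw [e1, ht]
      have h2 : (0 : ℝ) < D ^ 2 * 4 ^ k := by positivity
      rw [show 2 * (1 / (4 * (D : ℝ) ^ 2 * 4 ^ k)) = (1 / 2) * (1 / ((D : ℝ) ^ 2 * 4 ^ k)) by
        field_simp; ring]
      have h3 : 0 < 1 / ((D : ℝ) ^ 2 * 4 ^ k) := by positivity
      linarith
    _ = ENNReal.ofReal (Real.log (4 * (D : ℝ) ^ 2)) * μ J +
        ENNReal.ofReal (4 * Real.log 4) * μ J := by
      congr 1
      rw [hμJ, ← ENNReal.ofReal_mul (by positivity), ← ENNReal.ofReal_tsum_of_nonneg]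
      · congr 1
        have : ∀ k : ℕ, Real.log 4 * (2 * (1 / 2 ^ k * (1 / 2 ^ m))) =
            (Real.log 4 * 2 * (1 / 2 ^ m)) * (1 / 2) ^ k := by
          intro k
          rw [one_div_pow]
          ring
        simp only [this]
        rw [tsum_mul_left, tsum_geometric_two]
        ring
      · intro k
        positivity
      · have : ∀ k : ℕ, Real.log 4 * (2 * (1 / 2 ^ k * (1 / 2 ^ m))) =
            (Real.log 4 * 2 * (1 / 2 ^ m)) * (1 / 2) ^ k := by
          intro k
          rw [one_div_pow]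
          ring
        simp only [this]
        exact (summable_geometric_two).mul_left _
    _ = ENNReal.ofReal (MD D) * μ J := by
      rw [← add_mul, ← ENNReal.ofReal_add hlogD (by positivity)]
      rfl

/-- The measure has no atoms in the nodes; every point is null. -/
theorem IsQuestionMarkMeasure.singleton {μ : Measure ℝ} (hμ : IsQuestionMarkMeasure μ) (z : ℝ) :
    μ {z} = 0 := by
  have := hμ.prob
  by_cases hz : z ∈ Icc (0 : ℝ) 1
  · rcases hz.1.eq_or_lt with rfl | h0
    · have := hμ.cdf 0 (by simp)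
      rw [questionMark_zero] at this
      simpa using this
    · have hmem : z ∈ Node.ivl 0 1 1 1 := by
        unfold Node.ivl
        simpa using ⟨h0, hz.2⟩
      have hle : ∀ k : ℕ, μ.real {z} ≤ 2 * (1 / 2 ^ k * (1 / 2 ^ 0)) := by
        intro k
        have h1 := hμ.local_est k Node.root 1 le_rfl le_rfl z z (by
          rw [sub_self]; positivity)
        refine (measureReal_mono ?_).trans h1
        intro x hx
        rw [mem_singleton_iff] at hx
        subst hx
        exact ⟨hmem, le_rfl, le_rfl⟩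
      have htend : Tendsto (fun k : ℕ => 2 * (1 / 2 ^ k * (1 / 2 ^ 0)) : ℕ → ℝ) atTop (𝓝 0) := by
        have h1 : Tendsto (fun k : ℕ => (2 : ℝ) * (1 / 2) ^ k) atTop (𝓝 (2 * 0)) :=
          (tendsto_pow_atTop_nhds_zero_of_lt_one (by norm_num) (by norm_num)).const_mul _
        rw [mul_zero] at h1
        refine h1.congr fun k => ?_
        rw [one_div_pow]
        simp
      have h0' : μ.real {z} ≤ 0 := ge_of_tendsto' htend hle
      have h2 : μ.real {z} = 0 := le_antisymm h0' measureReal_nonneg
      rwa [measureReal_eq_zero_iff] at h2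
  · exact measure_mono_null (singleton_subset_iff.2 hz) hμ.compl

end Pool.Agent.Lib_helper93.Mink
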