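import Pool.Agent.Lib_helper93.Mink.Carrier

open MeasureTheory Set Filter Polynomial
open scoped Topology ENNReal Real

namespace Pool.Agent.Lib_helper93.Mink

variable {μ : Measure ℝ}

theorem integrable_cont {ν : Measure ℝ} [IsFiniteMeasure ν] (h01 : ν (Icc 0 1)ᶜ = 0) {f : ℝ → ℝ}
    (hf : Continuous f) : Integrable f ν := by
  have h1 : ν.restrict (Icc 0 1) = ν := Measure.restrict_eq_self_of_ae_mem h01
  rw [← h1]
  exact hf.continuousOn.integrableOn_compact isCompact_Icc

/-- Projection of a complex number to `[0,1]`. -/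
noncomputable def clp (z : ℂ) : ℝ := max 0 (min 1 z.re)

theorem clp_mem (z : ℂ) : clp z ∈ Icc (0 : ℝ) 1 :=
  ⟨le_max_left _ _, max_le zero_le_one (min_le_left _ _)⟩

theorem clp_le {x : ℝ} (hx : x ∈ Icc (0 : ℝ) 1) (z : ℂ) : |x - clp z| ≤ ‖(x : ℂ) - z‖ := by
  have h1 : |x - z.re| ≤ ‖(x : ℂ) - z‖ := by
    have := Complex.abs_re_le_norm ((x : ℂ) - z)
    simpa using this
  refine le_trans ?_ h1
  unfold clp
  rcases le_total z.re 0 with h | h
  · rw [min_eq_right (by linarith), max_eq_left h, abs_of_nonneg (by linarith [hx.1]),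
      abs_of_nonneg (by linarith [hx.1])]
    linarith
  · rcases le_total z.re 1 with h' | h'
    · rw [min_eq_right h', max_eq_right h]
    · rw [min_eq_left h', max_eq_right zero_le_one, abs_of_nonpos (by linarith [hx.2]),
        abs_of_nonpos (by linarith [hx.2])]
      linarith

/-- Lower bound for `∫ P² dν` for monic `P`. -/
theorem monic_lower {ν : Measure ℝ} (hν : IsProbabilityMeasure ν)
    (h01 : ν (Icc 0 1)ᶜ = 0) (hat : ∀ x, ν {x} = 0) {A : ℝ} (hA : 0 ≤ A)
    (hpot : ∀ z ∈ Icc (0 : ℝ) 1, ∫⁻ x, L z x ∂ν ≤ ENNReal.ofReal A) {P : ℝ[X]} (hP : P.Monic) :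
    Real.exp (-(2 * P.natDegree * A)) ≤ ∫ x, (P.eval x) ^ 2 ∂ν := by
  set s : Multiset ℂ := (P.map (algebraMap ℝ ℂ)).roots with hs
  have hmon : (P.map (algebraMap ℝ ℂ)).Monic := hP.map _
  have hsplit : (P.map (algebraMap ℝ ℂ)).Splits := IsAlgClosed.splits _
  have hcard : Multiset.card s = P.natDegree := by
    rw [hs, ← hsplit.natDegree_eq_card_roots, natDegree_map]
  have hprod : P.map (algebraMap ℝ ℂ) = (s.map fun z => X - C z).prod :=
    hsplit.eq_prod_roots_of_monic hmon
  have heval : ∀ x : ℝ, |P.eval x| = (s.map fun z => ‖(x : ℂ) - z‖).prod := by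
    intro x
    have h1 : ((P.eval x : ℝ) : ℂ) = (P.map (algebraMap ℝ ℂ)).eval (x : ℂ) := by
      rw [eval_map, ← Complex.coe_algebraMap, eval₂_at_apply]
    have h2 : (P.map (algebraMap ℝ ℂ)).eval (x : ℂ) = (s.map fun z => (x : ℂ) - z).prod := by
      rw [hprod, eval_multiset_prod, Multiset.map_map]
      simp
    have h3 : |P.eval x| = ‖((P.eval x : ℝ) : ℂ)‖ := by simp
    rw [h3, h1, h2]
    have h4 : ∀ t : Multiset ℂ, ‖(t.map fun z => (x : ℂ) - z).prod‖ =
        (t.map fun z => ‖(x : ℂ) - z‖).prod := by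
      intro t
      induction t using Multiset.induction with
      | empty => simp
      | cons a t ih => simp [ih]
    exact h4 s
  -- the sum function
  set S : Multiset ℂ → ℝ → ℝ := fun t x => (t.map fun z => -Real.log |x - clp z|).sum with hS
  have hℓ : ∀ w ∈ Icc (0 : ℝ) 1, Integrable (fun x => -Real.log |x - w|) ν ∧
      ∫ x, -Real.log |x - w| ∂ν ≤ A := by
    intro w hw
    have hm : Measurable (fun x : ℝ => -Real.log |x - w|) :=
      (Real.measurable_log.comp ((measurable_id.sub_const w).abs)).neg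
    have hnn : ∀ᵐ x ∂ν, 0 ≤ -Real.log |x - w| := by
      have h01' : ∀ᵐ y ∂ν, y ∈ Icc (0 : ℝ) 1 := h01
      filter_upwards [h01'] with x hx
      rw [neg_nonneg]
      apply Real.log_nonpos (abs_nonneg _)
      rw [abs_le]
      constructor
      · linarith [hx.1, hw.2]
      · linarith [hx.2, hw.1]
    have hl : ∫⁻ x, ENNReal.ofReal (-Real.log |x - w|) ∂ν ≤ ENNReal.ofReal A := hpot w hw
    constructor
    · refine ⟨hm.aestronglyMeasurable, ?_⟩
      rw [hasFiniteIntegral_iff_ofReal hnn]
      exact hl.trans_lt ENNReal.ofReal_lt_top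
    · rw [integral_eq_lintegral_of_nonneg_ae hnn hm.aestronglyMeasurable]
      exact ENNReal.toReal_le_of_le_ofReal hA hl
  have hSint : ∀ t : Multiset ℂ, Integrable (S t) ν ∧ ∫ x, S t x ∂ν ≤ Multiset.card t * A := by
    intro t
    induction t using Multiset.induction with
    | empty =>
      constructor
      · have : S 0 = fun _ => 0 := by
          funext x; simp [hS]
        rw [this]; exact integrable_zero _ _ _
      · simp [hS]
    | cons a t ih =>
      obtain ⟨h1, h2⟩ := hℓ (clp a) (clp_mem a)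
      have e : S (a ::ₘ t) = fun x => -Real.log |x - clp a| + S t x := by
        funext x; simp only [hS, Multiset.map_cons, Multiset.sum_cons]
      rw [e]
      refine ⟨h1.add ih.1, ?_⟩
      rw [integral_add h1 ih.1]
      simp only [Multiset.card_cons]
      push_cast
      linarith [ih.2]
  have hexp : ∀ (t : Multiset ℂ) (x : ℝ), (∀ z ∈ t, x ≠ clp z) →
      (t.map fun z => |x - clp z|).prod = Real.exp (-(S t x)) := by
    intro t x
    induction t using Multiset.induction with
    | empty => simp [hS]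
    | cons a t ih =>
      intro h
      have h1 := ih fun z hz => h z (Multiset.mem_cons_of_mem hz)
      have h2 : x ≠ clp a := h a (Multiset.mem_cons_self a t)
      have h3 : 0 < |x - clp a| := abs_pos.2 (sub_ne_zero.2 h2)
      rw [Multiset.map_cons, Multiset.prod_cons, h1]
      have e : S (a ::ₘ t) x = -Real.log |x - clp a| + S t x := by
        simp only [hS, Multiset.map_cons, Multiset.sum_cons]
      rw [e, neg_add, neg_neg, Real.exp_add, Real.exp_log h3]
  set n := P.natDegree with hn
  -- pointwise inequality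
  have hpt : ∀ᵐ x ∂ν, Real.exp (-(2 * n * A)) * (1 + 2 * n * A - 2 * S s x) ≤ (P.eval x) ^ 2 := by
    have h01' : ∀ᵐ y ∂ν, y ∈ Icc (0 : ℝ) 1 := h01
    have hne : ∀ᵐ x ∂ν, ∀ z ∈ s.toFinset, x ≠ clp z := by
      refine (Filter.eventually_all_finset _).2 fun z _ => ?_
      exact measure_eq_zero_iff_ae_notMem.1 (hat (clp z))
    filter_upwards [h01', hne] with x hx hxne
    have h1 : (s.map fun z => |x - clp z|).prod ≤ |P.eval x| := by
      rw [heval x]
      exact Multiset.prod_map_le_prod_map₀ _ _ (fun z _ => abs_nonneg _) (fun z _ => clp_le hx z)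
    rw [hexp s x (fun z hz => hxne z (Multiset.mem_toFinset.2 hz))] at h1
    have h2 : (Real.exp (-(S s x))) ^ 2 ≤ (P.eval x) ^ 2 := by
      rw [← sq_abs (P.eval x)]
      exact pow_le_pow_left₀ (Real.exp_pos _).le h1 2
    refine le_trans ?_ h2
    have h3 := Real.add_one_le_exp (2 * n * A - 2 * S s x)
    have h4 : (Real.exp (-(S s x))) ^ 2 = Real.exp (-(2 * n * A)) *
        Real.exp (2 * n * A - 2 * S s x) := by
      rw [← Real.exp_add, ← Real.exp_nat_mul]
      congr 1
      push_cast
      ring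
    rw [h4]
    have h5 := Real.exp_pos (-(2 * n * A))
    apply mul_le_mul_of_nonneg_left _ h5.le
    linarith
  have hPint : Integrable (fun x => (P.eval x) ^ 2) ν := integrable_cont h01 (P.continuous.pow 2)
  obtain ⟨hSi, hSle⟩ := hSint s
  calc Real.exp (-(2 * n * A)) = Real.exp (-(2 * n * A)) * (1 + 2 * n * A - 2 * (n * A)) := by ring
    _ ≤ Real.exp (-(2 * n * A)) * (1 + 2 * n * A - 2 * ∫ x, S s x ∂ν) := by
        have h5 := Real.exp_pos (-(2 * n * A))
        apply mul_le_mul_of_nonneg_left _ h5.le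
        rw [hcard] at hSle
        linarith
    _ = ∫ x, Real.exp (-(2 * n * A)) * (1 + 2 * n * A - 2 * S s x) ∂ν := by
        rw [integral_const_mul, integral_sub (integrable_const _) (hSi.const_mul 2),
          integral_const_mul]
        simp
    _ ≤ ∫ x, (P.eval x) ^ 2 ∂ν := by
        apply integral_mono_ae _ hPint hpt
        exact ((integrable_const _).sub (hSi.const_mul 2)).const_mul _

/-- Comparison of `ν` and `μ`. -/
theorem nuK_le (hμ : IsQuestionMarkMeasure μ) (F : Finset (ℕ × ℕ × ℕ × ℕ))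
    (h1 : ∀ t ∈ F, 0 < μ (iv t)) : ∃ D : ℝ≥0∞, D ≠ ∞ ∧
    ∀ f : ℝ → ℝ≥0∞, ∫⁻ x, f x ∂(nuK μ F univ) ≤ D * ∫⁻ x, f x ∂μ := by
  have := hμ.prob
  refine ⟨∑ t ∈ F, arcsine (iv t) / μ (univ ∩ iv t), ?_, ?_⟩
  · rw [ENNReal.sum_ne_top]
    intro t ht
    refine ENNReal.div_ne_top (measure_ne_top _ _) ?_
    rw [univ_inter]
    exact (h1 t ht).ne'
  · intro f
    unfold nuK
    rw [lintegral_finsetSum_measure, Finset.sum_mul]
    refine Finset.sum_le_sum fun t _ => ?_
    rw [lintegral_smul_measure, smul_eq_mul]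
    gcongr
    exact Measure.restrict_le_self

/-- Lower bound for `L²(μ)` norms of monic polynomials. -/
theorem monic_lower_mu (hμ : IsQuestionMarkMeasure μ) {N : ℕ} (hN : 1 ≤ N) :
    ∃ D : ℝ, 0 < D ∧ ∀ P : ℝ[X], P.Monic →
      Real.exp (-(2 * P.natDegree * (Real.log 4 + err N))) ≤ D * ∫ x, (P.eval x) ^ 2 ∂μ := by
  have := hμ.prob
  obtain ⟨F, h1, h2, h3, h4⟩ := exists_partition N hN
  have hpos : ∀ t ∈ F, 0 < μ (iv t) := by
    intro t ht
    obtain ⟨m, hm, -⟩ := h1 t ht
    rw [iv, ← ofReal_measureReal, hμ.measure_ivl hm]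
    simp
  have hKt : ∀ t ∈ F, μ (iv t) ≤ 2 * μ (univ ∩ iv t) := by
    intro t _
    rw [univ_inter, two_mul]
    exact le_self_add
  obtain ⟨D, hD, hDle⟩ := nuK_le hμ F hpos
  have hA : 0 ≤ Real.log 4 + err N := by
    have := err_nonneg hN
    have := Real.log_nonneg (show (1 : ℝ) ≤ 4 by norm_num)
    positivity
  set ν := nuK μ F univ with hν
  have hνp : IsProbabilityMeasure ν := ⟨nuK_univ hμ h1 h2 h3 hKt⟩
  have hν01 : ν (Icc 0 1)ᶜ = 0 := nuK_ac F univ hμ.compl
  have hat : ∀ x, ν {x} = 0 := fun x => nuK_ac F univ (hμ.singleton x)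
  refine ⟨D.toReal + 1, by positivity, fun P hP => ?_⟩
  have h5 := monic_lower hνp hν01 hat hA
    (fun z hz => potential_bound hμ hN h1 h2 h3 h4 MeasurableSet.univ hKt hz) hP
  refine h5.trans ?_
  have hnn : ∀ x, 0 ≤ (P.eval x) ^ 2 := fun x => sq_nonneg _
  have hcont : Continuous fun x => (P.eval x) ^ 2 := P.continuous.pow 2
  have i1 : Integrable (fun x => (P.eval x) ^ 2) μ := integrable_cont hμ.compl hcont
  have h6 := hDle fun x => ENNReal.ofReal ((P.eval x) ^ 2)
  rw [← ofReal_integral_eq_lintegral_ofReal i1 (Eventually.of_forall hnn)] at h6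
  rw [integral_eq_lintegral_of_nonneg_ae (Eventually.of_forall hnn)
    hcont.aestronglyMeasurable]
  have h7 : (∫⁻ x, ENNReal.ofReal ((P.eval x) ^ 2) ∂ν).toReal ≤
      (D * ENNReal.ofReal (∫ x, (P.eval x) ^ 2 ∂μ)).toReal :=
    ENNReal.toReal_mono (ENNReal.mul_ne_top hD ENNReal.ofReal_ne_top) h6
  rw [ENNReal.toReal_mul, ENNReal.toReal_ofReal (integral_nonneg hnn)] at h7
  refine h7.trans ?_
  have : 0 ≤ ∫ x, (P.eval x) ^ 2 ∂μ := integral_nonneg hnn
  nlinarith

/-- Orthogonality to polynomials of lower degree. -/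
theorem orth_lower (hμ : IsQuestionMarkMeasure μ) {p : ℕ → ℝ[X]} (hp : IsOrthonormal μ p) (n : ℕ) :
    ∀ k, k ≤ n → ∀ R : ℝ[X], R.degree < k → ∫ x, R.eval x * (p n).eval x ∂μ = 0 := by
  have := hμ.prob
  intro k
  induction k with
  | zero =>
    intro _ R hR
    have : R = 0 := by
      rw [← degree_eq_bot]
      exact Nat.WithBot.lt_zero_iff.1 (by exact_mod_cast hR)
    simp [this]
  | succ k ih =>
    intro hk R hR
    have hγ := (hp.leadingCoeff_pos k).ne'
    set c : ℝ := R.coeff k / (p k).leadingCoeff with hc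
    set R' := R - C c * p k with hR'
    have hdegk : (p k).degree = k := by
      rw [degree_eq_natDegree, hp.natDegree_eq]
      intro h
      rw [h] at hγ
      simp at hγ
    have hR'deg : R'.degree < k := by
      rw [degree_lt_iff_coeff_zero]
      intro j hj
      rw [hR', coeff_sub, coeff_C_mul]
      rcases hj.eq_or_lt with rfl | hj
      · have : (p k).coeff k = (p k).leadingCoeff := by
          rw [leadingCoeff, hp.natDegree_eq]
        rw [this, hc]
        field_simp
        ring
      · have e1 : R.coeff j = 0 := coeff_eq_zero_of_degree_lt (lt_of_lt_of_le hR (by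
          exact_mod_cast hj))
        have e2 : (p k).coeff j = 0 := coeff_eq_zero_of_degree_lt (by
          rw [hdegk]; exact_mod_cast hj)
        rw [e1, e2]
        ring
    have e : ∀ x, R.eval x * (p n).eval x = c * ((p k).eval x * (p n).eval x) +
        R'.eval x * (p n).eval x := by
      intro x
      rw [hR', eval_sub, eval_mul, eval_C]
      ring
    have i1 : Integrable (fun x => c * ((p k).eval x * (p n).eval x)) μ :=
      integrable_cont hμ.compl (continuous_const.mul ((p k).continuous.mul (p n).continuous))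
    have i2 : Integrable (fun x => R'.eval x * (p n).eval x) μ :=
      integrable_cont hμ.compl (R'.continuous.mul (p n).continuous)
    simp only [e]
    rw [integral_add i1 i2, integral_const_mul, hp.integral_mul, ih (by omega) R' hR'deg]
    rw [if_neg (by omega)]
    ring

/-- Lower bound for the leading coefficients, by comparison with Chebyshev polynomials. -/
theorem lead_ge (hμ : IsQuestionMarkMeasure μ) {p : ℕ → ℝ[X]} (hp : IsOrthonormal μ p) {n : ℕ}
    (hn : 1 ≤ n) : 2 ^ (2 * n - 1) ≤ (p n).leadingCoeff := by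
  have := hμ.prob
  set T : ℝ[X] := (Chebyshev.T ℝ n).comp (C 2 * X - 1) with hT
  have hlin : (C (2 : ℝ) * X - 1 : ℝ[X]).natDegree = 1 := by
    have : (C (2 : ℝ) * X - 1 : ℝ[X]) = C 2 * X + C (-1) := by
      simp [sub_eq_add_neg]
    rw [this]
    exact natDegree_linear (by norm_num)
  have hlead1 : (C (2 : ℝ) * X - 1 : ℝ[X]).leadingCoeff = 2 := by
    have : (C (2 : ℝ) * X - 1 : ℝ[X]) = C 2 * X + C (-1) := by
      simp [sub_eq_add_neg]
    rw [this]
    exact leadingCoeff_linear (by norm_num)
  have hTdeg : T.natDegree = n := by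
    rw [hT, natDegree_comp, hlin, Chebyshev.natDegree_T]
    simp
  have hTlead : T.leadingCoeff = 2 ^ (2 * n - 1) := by
    rw [hT, leadingCoeff_comp (by rw [hlin]; norm_num), hlead1, Chebyshev.leadingCoeff_T,
      Chebyshev.natDegree_T]
    simp only [Int.natAbs_natCast]
    rw [← pow_add]
    congr 1
    omega
  have hTbd : ∀ x ∈ Icc (0 : ℝ) 1, |T.eval x| ≤ 1 := by
    intro x hx
    rw [hT, eval_comp]
    simp only [eval_sub, eval_mul, eval_C, eval_X, eval_one]
    have hc : Real.cos (Real.arccos (2 * x - 1)) = 2 * x - 1 :=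
      Real.cos_arccos (by linarith [hx.1]) (by linarith [hx.2])
    rw [← hc, Chebyshev.T_real_cos]
    exact Real.abs_cos_le_one _
  have hγ := hp.leadingCoeff_pos n
  set c : ℝ := T.leadingCoeff / (p n).leadingCoeff with hcdef
  have hR : (T - C c * p n).degree < n := by
    rw [degree_lt_iff_coeff_zero]
    intro j hj
    rw [coeff_sub, coeff_C_mul]
    rcases hj.eq_or_lt with rfl | hj
    · have e1 : (p n).coeff n = (p n).leadingCoeff := by
        rw [leadingCoeff, hp.natDegree_eq]
      have e2 : T.coeff n = T.leadingCoeff := by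
        rw [leadingCoeff, hTdeg]
      rw [e1, e2, hcdef]
      field_simp
      ring
    · have e1 : T.coeff j = 0 := coeff_eq_zero_of_natDegree_lt (by omega)
      have e2 : (p n).coeff j = 0 := coeff_eq_zero_of_natDegree_lt (by
        rw [hp.natDegree_eq]; omega)
      rw [e1, e2]
      ring
  have h0 := orth_lower hμ hp n n le_rfl _ hR
  have hint : ∫ x, T.eval x * (p n).eval x ∂μ = c := by
    have e : ∀ x, T.eval x * (p n).eval x = c * ((p n).eval x * (p n).eval x) +
        (T - C c * p n).eval x * (p n).eval x := by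
      intro x
      rw [eval_sub, eval_mul, eval_C]
      ring
    have i1 : Integrable (fun x => c * ((p n).eval x * (p n).eval x)) μ :=
      integrable_cont hμ.compl (continuous_const.mul ((p n).continuous.mul (p n).continuous))
    have i2 : Integrable (fun x => (T - C c * p n).eval x * (p n).eval x) μ :=
      integrable_cont hμ.compl ((T - C c * p n).continuous.mul (p n).continuous)
    simp only [e]
    rw [integral_add i1 i2, integral_const_mul, hp.integral_mul, h0, if_pos rfl]
    ring
  have hle : ∫ x, T.eval x * (p n).eval x ∂μ ≤ 1 := by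
    have h01' : ∀ᵐ y ∂μ, y ∈ Icc (0 : ℝ) 1 := hμ.compl
    have i3 : Integrable (fun x => (1 + (p n).eval x * (p n).eval x) / 2) μ :=
      integrable_cont hμ.compl ((continuous_const.add
        ((p n).continuous.mul (p n).continuous)).div_const 2)
    calc ∫ x, T.eval x * (p n).eval x ∂μ ≤ ∫ x, (1 + (p n).eval x * (p n).eval x) / 2 ∂μ := by
          refine integral_mono_ae (integrable_cont hμ.compl (T.continuous.mul (p n).continuous))
            i3 ?_
          filter_upwards [h01'] with x hx
          have h1 := abs_le.1 (hTbd x hx)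
          have h2 := sq_nonneg ((p n).eval x - T.eval x)
          have h3 : T.eval x ^ 2 ≤ 1 := by
            rw [← sq_abs]
            exact pow_le_one₀ (abs_nonneg _) (hTbd x hx)
          nlinarith
      _ = 1 := by
          have i4 : Integrable (fun x => (p n).eval x * (p n).eval x) μ :=
            integrable_cont hμ.compl ((p n).continuous.mul (p n).continuous)
          rw [integral_div, integral_add (integrable_const _) i4, hp.integral_mul, if_pos rfl]
          simp
  rw [hint, hcdef, div_le_one hγ, hTlead] at hle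
  exact hle

/-- The product of the recurrence coefficients. -/
theorem prod_eq (hμ : IsQuestionMarkMeasure μ) {p : ℕ → ℝ[X]} (hp : IsOrthonormal μ p)
    {a b : ℕ → ℝ} (hab : IsRecurrence p a b) (n : ℕ) :
    ∏ k ∈ Finset.range n, a (k + 1) = ((p n).leadingCoeff)⁻¹ := by
  have := hμ.prob
  have hstep : ∀ n, (p n).leadingCoeff = a (n + 1) * (p (n + 1)).leadingCoeff := by
    intro n
    have hc : ∀ m, (p m).coeff m = (p m).leadingCoeff := by
      intro m
      rw [leadingCoeff, hp.natDegree_eq]
    have hz : ∀ m j, m < j → (p m).coeff j = 0 := fun m j h =>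
      coeff_eq_zero_of_natDegree_lt (by rw [hp.natDegree_eq]; exact h)
    cases n with
    | zero =>
      have h := congrArg (fun q : ℝ[X] => q.coeff 1) hab.zero
      simp only [coeff_X_mul, coeff_add, coeff_C_mul] at h
      rw [hc, hc, hz 0 1 (by norm_num)] at h
      simpa using h
    | succ n =>
      have h := congrArg (fun q : ℝ[X] => q.coeff (n + 2)) (hab.succ n)
      simp only [coeff_X_mul, coeff_add, coeff_C_mul] at h
      rw [hc, hc, hz (n + 1) (n + 2) (by omega), hz n (n + 2) (by omega)] at h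
      simpa using h
  induction n with
  | zero =>
    have h0 := hp.integral_mul 0 0
    have h1 : p 0 = C ((p 0).leadingCoeff) := by
      have := eq_C_of_natDegree_eq_zero (hp.natDegree_eq 0)
      conv_lhs => rw [this]
      rw [leadingCoeff, hp.natDegree_eq]
    rw [h1] at h0
    simp only [eval_C, integral_const, if_true] at h0
    simp only [probReal_univ, one_smul] at h0
    have h2 := hp.leadingCoeff_pos 0
    have h3 : (p 0).leadingCoeff = 1 := by nlinarith
    simp [h3]
  | succ n ih =>
    rw [Finset.prod_range_succ, ih, hstep n]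
    have h1 := (hp.leadingCoeff_pos (n + 1)).ne'
    have h2 := (hab.pos (n + 1) (by omega)).ne'
    field_simp

/-- The geometric means of the recurrence coefficients converge to `1/4`. -/
theorem geomMean_tendsto (hμ : IsQuestionMarkMeasure μ) {p : ℕ → ℝ[X]} (hp : IsOrthonormal μ p)
    {a b : ℕ → ℝ} (hab : IsRecurrence p a b) :
    Tendsto (fun n : ℕ => (∏ k ∈ Finset.range n, a (k + 1)) ^ (1 / (n : ℝ))) atTop
      (𝓝 (1 / 4)) := by
  have hprob := hμ.prob
  have hγ : ∀ n, 0 < (p n).leadingCoeff := hp.leadingCoeff_pos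
  -- lower bound for the logarithm of the leading coefficient
  have hlow : ∀ n : ℕ, 1 ≤ n → (2 * n - 1) * Real.log 2 ≤ Real.log (p n).leadingCoeff := by
    intro n hn
    have h1 := lead_ge hμ hp hn
    have h2 := Real.log_le_log (by positivity) h1
    rw [Real.log_pow] at h2
    have h3 : ((2 * n - 1 : ℕ) : ℝ) = 2 * n - 1 := by
      rw [Nat.cast_sub (by omega)]
      push_cast
      ring
    rwa [h3] at h2
  -- upper bound
  have hup : ∀ N : ℕ, 1 ≤ N → ∃ C : ℝ, ∀ n : ℕ, Real.log (p n).leadingCoeff ≤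
      n * (Real.log 4 + err N) + C := by
    intro N hN
    obtain ⟨D, hD, h⟩ := monic_lower_mu hμ hN
    refine ⟨Real.log D / 2, fun n => ?_⟩
    set P : ℝ[X] := C ((p n).leadingCoeff)⁻¹ * p n with hP
    have hPm : P.Monic := by
      rw [Monic, hP, leadingCoeff_mul, leadingCoeff_C, inv_mul_cancel₀ (hγ n).ne']
    have hPd : P.natDegree = n := by
      rw [hP, natDegree_C_mul (inv_ne_zero (hγ n).ne'), hp.natDegree_eq]
    have h1 := h P hPm
    have h2 : ∫ x, (P.eval x) ^ 2 ∂μ = ((p n).leadingCoeff ^ 2)⁻¹ := by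
      have e : ∀ x, (P.eval x) ^ 2 = ((p n).leadingCoeff ^ 2)⁻¹ *
          ((p n).eval x * (p n).eval x) := by
        intro x
        rw [hP, eval_mul, eval_C, ← inv_pow]
        ring
      simp only [e]
      rw [integral_const_mul, hp.integral_mul, if_pos rfl, mul_one]
    rw [h2, hPd] at h1
    have h3 := Real.log_le_log (Real.exp_pos _) h1
    rw [Real.log_exp, Real.log_mul hD.ne' (inv_ne_zero (pow_ne_zero _ (hγ n).ne')), Real.log_inv,
      Real.log_pow] at h3
    push_cast at h3
    linarith
  -- convergence of the logarithms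
  have hlog4 : Real.log 4 = 2 * Real.log 2 := by
    rw [show (4 : ℝ) = 2 ^ 2 by norm_num, Real.log_pow]
    push_cast
    ring
  have hlim : Tendsto (fun n : ℕ => -(Real.log (p n).leadingCoeff / n)) atTop
      (𝓝 (-Real.log 4)) := by
    apply Tendsto.neg
    rw [Metric.tendsto_atTop]
    intro ε hε
    obtain ⟨N, hN1, hN2⟩ := ((err_tendsto.eventually (gt_mem_nhds (half_pos hε))).and
      (eventually_ge_atTop 1)).exists
    obtain ⟨C, hC⟩ := hup N hN2
    obtain ⟨M, hM⟩ := exists_nat_gt (2 * (|C| + Real.log 2) / ε)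
    refine ⟨M + 1, fun n hn => ?_⟩
    have hn1 : 1 ≤ n := by omega
    have hn0 : (0 : ℝ) < n := by exact_mod_cast hn1
    have hlog2 : 0 < Real.log 2 := Real.log_pos (by norm_num)
    have hnM : 2 * (|C| + Real.log 2) / ε < n := by
      refine hM.trans ?_
      exact_mod_cast (by omega)
    rw [div_lt_iff₀ hε] at hnM
    have h1 := hC n
    have h2 := hlow n hn1
    have hCa := le_abs_self C
    have hCn := abs_nonneg C
    rw [Real.dist_eq, abs_lt]
    constructor
    · rw [lt_sub_iff_add_lt, lt_div_iff₀ hn0, hlog4]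
      nlinarith
    · rw [sub_lt_iff_lt_add, div_lt_iff₀ hn0]
      nlinarith
  have hexp := (Real.continuous_exp.tendsto _).comp hlim
  have he : Real.exp (-Real.log 4) = 1 / 4 := by
    rw [Real.exp_neg, Real.exp_log (by norm_num)]
    norm_num
  rw [he] at hexp
  refine hexp.congr' ?_
  filter_upwards [eventually_ge_atTop 1] with n hn
  rw [prod_eq hμ hp hab, Real.rpow_def_of_pos (inv_pos.2 (hγ n)), Real.log_inv]
  simp only [Function.comp]
  congr 1
  ring

end Pool.Agent.Lib_helper93.Mink
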