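import Pool.Agent.Lib_helper93.Mink.Arcsine

open MeasureTheory Set Filter
open scoped Topology ENNReal Real

namespace Pool.Agent.Lib_helper93.Mink

/-- The error term. -/
noncomputable def err (N : ℕ) : ℝ := Real.sqrt (1 / N) * (8 * MD N + 4 * Real.log N)

theorem MD_nonneg {N : ℕ} (hN : 1 ≤ N) : 0 ≤ MD N := by
  have hN' : (1 : ℝ) ≤ N := by exact_mod_cast hN
  unfold MD
  have h1 : 0 ≤ Real.log 4 := Real.log_nonneg (by norm_num)
  have h2 : 0 ≤ Real.log (4 * (N : ℝ) ^ 2) := Real.log_nonneg (by nlinarith)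
  positivity

theorem MD_eq {N : ℕ} (hN : 1 ≤ N) : MD N = 2 * Real.log N + 5 * Real.log 4 := by
  have hN' : (1 : ℝ) ≤ N := by exact_mod_cast hN
  unfold MD
  rw [Real.log_mul (by norm_num) (by positivity), Real.log_pow]
  push_cast
  ring

theorem err_nonneg {N : ℕ} (hN : 1 ≤ N) : 0 ≤ err N := by
  have hN' : (1 : ℝ) ≤ N := by exact_mod_cast hN
  unfold err
  have h1 : 0 ≤ Real.log N := Real.log_nonneg hN'
  have h2 := MD_nonneg hN
  positivity

theorem err_tendsto : Tendsto err atTop (𝓝 0) := by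
  have h1 : Tendsto (fun N : ℕ => (20 * Real.log N + 40 * Real.log 4) / Real.sqrt N) atTop
      (𝓝 0) := by
    have h2 : Tendsto (fun N : ℕ => Real.log (N : ℝ) / Real.sqrt N) atTop (𝓝 0) := by
      have h3 : Tendsto (fun x : ℝ => Real.log x / x ^ (1 / 2 : ℝ)) atTop (𝓝 0) :=
        (isLittleO_log_rpow_atTop (by norm_num)).tendsto_div_nhds_zero
      have h4 := h3.comp tendsto_natCast_atTop_atTop
      refine h4.congr fun N => ?_
      simp only [Function.comp, Real.sqrt_eq_rpow]
    have h5 : Tendsto (fun N : ℕ => (Real.sqrt N)⁻¹) atTop (𝓝 0) := by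
      exact (Real.tendsto_sqrt_atTop.comp tendsto_natCast_atTop_atTop).inv_tendsto_atTop
    have h6 := (h2.const_mul 20).add (h5.const_mul (40 * Real.log 4))
    rw [mul_zero, mul_zero, add_zero] at h6
    refine h6.congr fun N => ?_
    ring
  refine h1.congr' ?_
  filter_upwards [eventually_ge_atTop 1] with N hN
  unfold err
  rw [MD_eq hN, Real.sqrt_div zero_le_one, Real.sqrt_one]
  ring

/-- The additive function majorizing the error on each cell. -/
noncomputable def clampF (N : ℕ) (z x : ℝ) : ℝ :=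
  max (z - 2 / (N : ℝ) ^ 2) (min x (z + 2 / (N : ℝ) ^ 2))

noncomputable def GRf (N : ℕ) (z x : ℝ) : ℝ := Real.log (max (x - z) (1 / (N : ℝ) ^ 2))
noncomputable def GLf (N : ℕ) (z x : ℝ) : ℝ := -Real.log (max (z - x) (1 / (N : ℝ) ^ 2))

noncomputable def Phi (N : ℕ) (z x : ℝ) : ℝ :=
  2 * MD N * (N : ℝ) ^ 2 * clampF N z x + (GRf N z x + GLf N z x)

theorem clampF_mono (N : ℕ) (z : ℝ) : Monotone (clampF N z) := fun _ _ h =>
  max_le_max le_rfl (min_le_min h le_rfl)

theorem GRf_mono {N : ℕ} (hN : 1 ≤ N) (z : ℝ) : Monotone (GRf N z) := by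
  intro x y h
  have hN' : (1 : ℝ) ≤ N := by exact_mod_cast hN
  unfold GRf
  apply Real.log_le_log (lt_of_lt_of_le (by positivity) (le_max_right _ _))
  exact max_le_max (by linarith) le_rfl

theorem GLf_mono {N : ℕ} (hN : 1 ≤ N) (z : ℝ) : Monotone (GLf N z) := by
  intro x y h
  have hN' : (1 : ℝ) ≤ N := by exact_mod_cast hN
  unfold GLf
  apply neg_le_neg
  apply Real.log_le_log (lt_of_lt_of_le (by positivity) (le_max_right _ _))
  exact max_le_max (by linarith) le_rfl

theorem Phi_total {N : ℕ} (hN : 1 ≤ N) {z : ℝ} (hz : z ∈ Icc (0 : ℝ) 1) :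
    Phi N z 1 - Phi N z 0 ≤ 8 * MD N + 4 * Real.log N := by
  have hN' : (1 : ℝ) ≤ N := by exact_mod_cast hN
  have hM := MD_nonneg hN
  have hlog : 0 ≤ Real.log N := Real.log_nonneg hN'
  have hNsq : (1 : ℝ) ≤ (N : ℝ) ^ 2 := one_le_pow₀ hN'
  have h1 : clampF N z 1 - clampF N z 0 ≤ 4 / (N : ℝ) ^ 2 := by
    have a1 : clampF N z 1 ≤ z + 2 / (N : ℝ) ^ 2 := by
      unfold clampF
      apply max_le
      · have : (0 : ℝ) ≤ 2 / (N : ℝ) ^ 2 := by positivity
        linarith
      · exact min_le_right _ _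
    have a2 : z - 2 / (N : ℝ) ^ 2 ≤ clampF N z 0 := le_max_left _ _
    have : (4 : ℝ) / (N : ℝ) ^ 2 = 2 / (N : ℝ) ^ 2 + 2 / (N : ℝ) ^ 2 := by ring
    linarith
  have h1' : 2 * MD N * (N : ℝ) ^ 2 * (clampF N z 1 - clampF N z 0) ≤ 8 * MD N := by
    calc 2 * MD N * (N : ℝ) ^ 2 * (clampF N z 1 - clampF N z 0)
        ≤ 2 * MD N * (N : ℝ) ^ 2 * (4 / (N : ℝ) ^ 2) := by gcongr
      _ = 8 * MD N := by field_simp; ring
  have hlogmin : Real.log (1 / (N : ℝ) ^ 2) = -(2 * Real.log N) := by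
    rw [one_div, Real.log_inv, Real.log_pow]
    push_cast
    ring
  have hle1 : 1 / (N : ℝ) ^ 2 ≤ 1 := by
    rw [div_le_one (by positivity)]
    exact hNsq
  have hposm : (0 : ℝ) < 1 / (N : ℝ) ^ 2 := by positivity
  have b1 : GRf N z 1 ≤ 0 := by
    unfold GRf
    apply Real.log_nonpos
    · exact le_trans hposm.le (le_max_right _ _)
    · exact max_le (by linarith [hz.1]) hle1
  have b2 : -(2 * Real.log N) ≤ GRf N z 0 := by
    unfold GRf
    rw [← hlogmin]
    exact Real.log_le_log hposm (le_max_right _ _)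
  have b3 : GLf N z 1 ≤ 2 * Real.log N := by
    unfold GLf
    rw [neg_le, ← hlogmin]
    exact Real.log_le_log hposm (le_max_right _ _)
  have b4 : 0 ≤ GLf N z 0 := by
    unfold GLf
    rw [neg_nonneg]
    apply Real.log_nonpos
    · exact le_trans hposm.le (le_max_right _ _)
    · exact max_le (by linarith [hz.2]) hle1
  unfold Phi
  linarith

theorem Phi_mono {N : ℕ} (hN : 1 ≤ N) (z : ℝ) : Monotone (Phi N z) := by
  intro x y h
  unfold Phi
  have hM := MD_nonneg hN
  have h1 := clampF_mono N z h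
  have h2 := GRf_mono hN z h
  have h3 := GLf_mono hN z h
  gcongr

section cell

variable {μ : Measure ℝ}

/-- Estimate on one cell. -/
theorem cell_bound (hμ : IsQuestionMarkMeasure μ) {N : ℕ} (hN : 1 ≤ N)
    {t : ℕ × ℕ × ℕ × ℕ} (ht : IsFarey N t) {K : Set ℝ} (hK : MeasurableSet K)
    (hKt : μ (iv t) ≤ 2 * μ (K ∩ iv t)) {z : ℝ} (hz : z ∈ Icc (0 : ℝ) 1) :
    (arcsine (iv t) / μ (K ∩ iv t)) * ∫⁻ x in K ∩ iv t, L z x ∂μ ≤
      ∫⁻ x in iv t, L z x ∂arcsine +
        ENNReal.ofReal (Real.sqrt (1 / N) * (Phi N z (hi t) - Phi N z (lo t))) := by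
  have := hμ.prob
  have hN' : (1 : ℝ) ≤ N := by exact_mod_cast hN
  have hM := MD_nonneg hN
  have hlen := ht.length hN
  have hbd := ht.bounds
  have hmt : MeasurableSet (iv t) := measurableSet_Ioc
  obtain ⟨m, hm, h1, h2, -⟩ := ht
  have hμt : μ (iv t) = ENNReal.ofReal (1 / 2 ^ m) := by
    rw [iv, ← hμ.measure_ivl hm, ofReal_measureReal]
  have hμt0 : μ (iv t) ≠ 0 := by
    rw [hμt]
    simp
  have hKt0 : μ (K ∩ iv t) ≠ 0 := by
    intro h
    rw [h, mul_zero] at hKt
    exact hμt0 (le_antisymm hKt (zero_le))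
  have hKtop : μ (K ∩ iv t) ≠ ∞ := measure_ne_top _ _
  have hω : arcsine (iv t) ≤ ENNReal.ofReal (Real.sqrt (1 / N)) := by
    refine (measure_mono (Ioc_subset_Icc_self (a := lo t) (b := hi t))).trans
      ((arcsine_Icc _ _).trans ?_)
    apply ENNReal.ofReal_le_ofReal
    exact Real.sqrt_le_sqrt hlen.2
  have hle1 : (0 : ℝ) < 1 / (N : ℝ) ^ 2 := by positivity
  have hfar : ∀ c e : ℝ, 0 ≤ e → (∀ x ∈ iv t, L z x ≤ ENNReal.ofReal c) →
      (∀ x ∈ iv t, ENNReal.ofReal c ≤ L z x + ENNReal.ofReal e) →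
      e ≤ Phi N z (hi t) - Phi N z (lo t) →
      (arcsine (iv t) / μ (K ∩ iv t)) * ∫⁻ x in K ∩ iv t, L z x ∂μ ≤
      ∫⁻ x in iv t, L z x ∂arcsine +
        ENNReal.ofReal (Real.sqrt (1 / N) * (Phi N z (hi t) - Phi N z (lo t))) := by
    intro c e he0 hc hce hePhi
    calc (arcsine (iv t) / μ (K ∩ iv t)) * ∫⁻ x in K ∩ iv t, L z x ∂μ
        ≤ (arcsine (iv t) / μ (K ∩ iv t)) * (ENNReal.ofReal c * μ (K ∩ iv t)) := by
          gcongr
          rw [← setLIntegral_const]
          exact setLIntegral_mono measurable_const fun x hx => hc x hx.2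
      _ = ENNReal.ofReal c * arcsine (iv t) := by
          rw [mul_comm (ENNReal.ofReal c), ← mul_assoc, ENNReal.div_mul_cancel hKt0 hKtop, mul_comm]
      _ = ∫⁻ x in iv t, ENNReal.ofReal c ∂arcsine := by rw [setLIntegral_const]
      _ ≤ ∫⁻ x in iv t, (L z x + ENNReal.ofReal e) ∂arcsine :=
          setLIntegral_mono ((measurable_L z).add measurable_const) hce
      _ = ∫⁻ x in iv t, L z x ∂arcsine + ENNReal.ofReal e * arcsine (iv t) := by
          rw [lintegral_add_left (measurable_L z), setLIntegral_const]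
      _ ≤ ∫⁻ x in iv t, L z x ∂arcsine +
            ENNReal.ofReal (Real.sqrt (1 / N) * (Phi N z (hi t) - Phi N z (lo t))) := by
          gcongr
          rw [ENNReal.ofReal_mul (by positivity), mul_comm]
          gcongr
  rcases le_or_gt (z + 1 / (N : ℝ) ^ 2) (lo t) with hR | hR
  · -- cell to the right
    refine hfar (-Real.log (lo t - z)) (GRf N z (hi t) - GRf N z (lo t)) ?_ ?_ ?_ ?_
    · linarith [GRf_mono hN z hbd.2.1.le]
    · intro x hx
      unfold L
      apply ENNReal.ofReal_le_ofReal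
      apply neg_le_neg
      have hx1 : lo t < x := hx.1
      rw [abs_of_pos (by linarith)]
      exact Real.log_le_log (by linarith) (by linarith)
    · intro x hx
      unfold L
      have hx1 : lo t < x := hx.1
      have hx2 : x ≤ hi t := hx.2
      rw [abs_of_pos (by linarith)]
      have hnn : 0 ≤ -Real.log (x - z) := by
        rw [neg_nonneg]
        exact Real.log_nonpos (by linarith) (by linarith [hz.1])
      rw [← ENNReal.ofReal_add hnn (by linarith [GRf_mono hN z hbd.2.1.le])]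
      apply ENNReal.ofReal_le_ofReal
      have e1 : GRf N z (lo t) = Real.log (lo t - z) := by
        unfold GRf
        rw [max_eq_left (by linarith)]
      have e2 : GRf N z (hi t) = Real.log (hi t - z) := by
        unfold GRf
        rw [max_eq_left (by linarith)]
      have e3 : Real.log (x - z) ≤ Real.log (hi t - z) :=
        Real.log_le_log (by linarith) (by linarith)
      linarith
    · unfold Phi
      have := clampF_mono N z hbd.2.1.le
      have := GLf_mono hN z hbd.2.1.le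
      have h5 : 0 ≤ 2 * MD N * (N : ℝ) ^ 2 * (clampF N z (hi t) - clampF N z (lo t)) := by
        apply mul_nonneg (by positivity)
        linarith
      linarith
  rcases le_or_gt (hi t) (z - 1 / (N : ℝ) ^ 2) with hL | hL
  · -- cell to the left
    refine hfar (-Real.log (z - hi t)) (GLf N z (hi t) - GLf N z (lo t)) ?_ ?_ ?_ ?_
    · linarith [GLf_mono hN z hbd.2.1.le]
    · intro x hx
      unfold L
      apply ENNReal.ofReal_le_ofReal
      apply neg_le_neg
      have hx2 : x ≤ hi t := hx.2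
      rw [abs_of_neg (by linarith)]
      exact Real.log_le_log (by linarith) (by linarith)
    · intro x hx
      unfold L
      have hx1 : lo t < x := hx.1
      have hx2 : x ≤ hi t := hx.2
      rw [abs_of_neg (by linarith)]
      have hnn : 0 ≤ -Real.log (-(x - z)) := by
        rw [neg_nonneg]
        exact Real.log_nonpos (by linarith) (by linarith [hz.2, hbd.1])
      rw [← ENNReal.ofReal_add hnn (by linarith [GLf_mono hN z hbd.2.1.le])]
      apply ENNReal.ofReal_le_ofReal
      have e1 : GLf N z (lo t) = -Real.log (z - lo t) := by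
        unfold GLf
        rw [max_eq_left (by linarith)]
      have e2 : GLf N z (hi t) = -Real.log (z - hi t) := by
        unfold GLf
        rw [max_eq_left (by linarith)]
      have e3 : Real.log (-(x - z)) ≤ Real.log (z - lo t) :=
        Real.log_le_log (by linarith) (by linarith)
      linarith
    · unfold Phi
      have := clampF_mono N z hbd.2.1.le
      have := GRf_mono hN z hbd.2.1.le
      have h5 : 0 ≤ 2 * MD N * (N : ℝ) ^ 2 * (clampF N z (hi t) - clampF N z (lo t)) := by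
        apply mul_nonneg (by positivity)
        linarith
      linarith
  · -- near cell
    refine le_trans ?_ le_add_self
    have hcl : 1 / (N : ℝ) ^ 2 ≤ clampF N z (hi t) - clampF N z (lo t) := by
      have a0 : (2 : ℝ) / (N : ℝ) ^ 2 = 1 / (N : ℝ) ^ 2 + 1 / (N : ℝ) ^ 2 := by ring
      unfold clampF
      rw [a0]
      set d := 1 / (N : ℝ) ^ 2 with hd
      rcases le_total (hi t) (z + (d + d)) with h3 | h3
      · rw [min_eq_left h3, max_eq_right (by linarith)]
        rcases le_total (lo t) (z + (d + d)) with h4 | h4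
        · rw [min_eq_left h4]
          rcases le_total (lo t) (z - (d + d)) with h5 | h5
          · rw [max_eq_left h5]; linarith
          · rw [max_eq_right h5]; linarith [hlen.1]
        · linarith
      · rw [min_eq_right h3, max_eq_right (by linarith)]
        rw [min_eq_left (by linarith)]
        rcases le_total (lo t) (z - (d + d)) with h5 | h5
        · rw [max_eq_left h5]; linarith
        · rw [max_eq_right h5]; linarith
    have hPhi : 2 * MD N ≤ Phi N z (hi t) - Phi N z (lo t) := by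
      unfold Phi
      have := GLf_mono hN z hbd.2.1.le
      have := GRf_mono hN z hbd.2.1.le
      have h5 : 2 * MD N * (N : ℝ) ^ 2 * (1 / (N : ℝ) ^ 2) ≤
          2 * MD N * (N : ℝ) ^ 2 * (clampF N z (hi t) - clampF N z (lo t)) := by
        gcongr
      have h6 : 2 * MD N * (N : ℝ) ^ 2 * (1 / (N : ℝ) ^ 2) = 2 * MD N := by
        field_simp
      linarith
    calc (arcsine (iv t) / μ (K ∩ iv t)) * ∫⁻ x in K ∩ iv t, L z x ∂μ
        ≤ (arcsine (iv t) / μ (K ∩ iv t)) * (ENNReal.ofReal (MD N) * (2 * μ (K ∩ iv t))) := by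
          gcongr
          calc ∫⁻ x in K ∩ iv t, L z x ∂μ ≤ ∫⁻ x in iv t, L z x ∂μ :=
                lintegral_mono_set inter_subset_right
            _ ≤ ENNReal.ofReal (MD N) * μ (iv t) := hμ.lintegral_L hm h1 h2 z
            _ ≤ ENNReal.ofReal (MD N) * (2 * μ (K ∩ iv t)) := by gcongr
      _ = (ENNReal.ofReal (MD N) * 2) * arcsine (iv t) := by
          rw [show ENNReal.ofReal (MD N) * (2 * μ (K ∩ iv t)) =
            μ (K ∩ iv t) * (ENNReal.ofReal (MD N) * 2) by ring, ← mul_assoc,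
            ENNReal.div_mul_cancel hKt0 hKtop, mul_comm]
      _ ≤ ENNReal.ofReal (2 * MD N) * ENNReal.ofReal (Real.sqrt (1 / N)) := by
          rw [mul_comm (ENNReal.ofReal (MD N)), ← ENNReal.ofReal_ofNat,
            ← ENNReal.ofReal_mul (by norm_num)]
          gcongr
      _ ≤ ENNReal.ofReal (Real.sqrt (1 / N) * (Phi N z (hi t) - Phi N z (lo t))) := by
          rw [← ENNReal.ofReal_mul (by positivity), mul_comm]
          apply ENNReal.ofReal_le_ofReal
          gcongr

/-- The modified measure on `K`. -/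
noncomputable def nuK (μ : Measure ℝ) (F : Finset (ℕ × ℕ × ℕ × ℕ)) (K : Set ℝ) : Measure ℝ :=
  ∑ t ∈ F, (arcsine (iv t) / μ (K ∩ iv t)) • μ.restrict (K ∩ iv t)

/-- **Main potential estimate.** -/
theorem potential_bound (hμ : IsQuestionMarkMeasure μ) {N : ℕ} (hN : 1 ≤ N)
    {F : Finset (ℕ × ℕ × ℕ × ℕ)} (h1 : ∀ t ∈ F, IsFarey N t)
    (h2 : (F : Set (ℕ × ℕ × ℕ × ℕ)).PairwiseDisjoint iv) (h3 : (⋃ t ∈ F, iv t) = Ioc 0 1)
    (h4 : ∀ G : ℝ → ℝ, ∑ t ∈ F, (G (hi t) - G (lo t)) = G 1 - G 0)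
    {K : Set ℝ} (hK : MeasurableSet K) (hKt : ∀ t ∈ F, μ (iv t) ≤ 2 * μ (K ∩ iv t)) {z : ℝ}
    (hz : z ∈ Icc (0 : ℝ) 1) :
    ∫⁻ x, L z x ∂(nuK μ F K) ≤ ENNReal.ofReal (Real.log 4 + err N) := by
  have hN' : (1 : ℝ) ≤ N := by exact_mod_cast hN
  unfold nuK
  rw [lintegral_finsetSum_measure]
  simp only [lintegral_smul_measure, smul_eq_mul]
  calc ∑ t ∈ F, (arcsine (iv t) / μ (K ∩ iv t)) * ∫⁻ x in K ∩ iv t, L z x ∂μ
      ≤ ∑ t ∈ F, (∫⁻ x in iv t, L z x ∂arcsine +
        ENNReal.ofReal (Real.sqrt (1 / N) * (Phi N z (hi t) - Phi N z (lo t)))) :=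
        Finset.sum_le_sum fun t ht => cell_bound hμ hN (h1 t ht) hK (hKt t ht) hz
    _ = ∫⁻ x in Ioc 0 1, L z x ∂arcsine +
        ENNReal.ofReal (Real.sqrt (1 / N) * (Phi N z 1 - Phi N z 0)) := by
        rw [Finset.sum_add_distrib, ← h3,
          lintegral_biUnion_finset h2 (fun t _ => measurableSet_Ioc), ← h4,
          ← ENNReal.ofReal_sum_of_nonneg, Finset.mul_sum]
        intro t ht
        have := Phi_mono hN z (h1 t ht).bounds.2.1.le
        apply mul_nonneg (by positivity)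
        linarith
    _ ≤ ENNReal.ofReal (Real.log 4) + ENNReal.ofReal (err N) := by
        gcongr
        · exact (setLIntegral_le_lintegral _ _).trans (arcsine_potential hz)
        · unfold err
          have := Phi_total hN hz
          gcongr
    _ = ENNReal.ofReal (Real.log 4 + err N) := by
        rw [ENNReal.ofReal_add (Real.log_nonneg (by norm_num)) (err_nonneg hN)]

theorem nuK_univ (hμ : IsQuestionMarkMeasure μ) {N : ℕ}
    {F : Finset (ℕ × ℕ × ℕ × ℕ)} (h1 : ∀ t ∈ F, IsFarey N t)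
    (h2 : (F : Set (ℕ × ℕ × ℕ × ℕ)).PairwiseDisjoint iv) (h3 : (⋃ t ∈ F, iv t) = Ioc 0 1)
    {K : Set ℝ} (hKt : ∀ t ∈ F, μ (iv t) ≤ 2 * μ (K ∩ iv t)) :
    nuK μ F K univ = 1 := by
  have := hμ.prob
  unfold nuK
  rw [Measure.finsetSum_apply]
  simp only [Measure.smul_apply, Measure.restrict_apply_univ, smul_eq_mul]
  rw [← arcsine_Ioc01, ← h3, measure_biUnion_finset h2 (fun t _ => measurableSet_Ioc)]
  refine Finset.sum_congr rfl fun t ht => ?_
  obtain ⟨m, hm, -⟩ := h1 t ht
  have hμt : μ (iv t) = ENNReal.ofReal (1 / 2 ^ m) := by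
    rw [iv, ← hμ.measure_ivl hm, ofReal_measureReal]
  have hμt0 : μ (iv t) ≠ 0 := by
    rw [hμt]
    simp
  have hKt0 : μ (K ∩ iv t) ≠ 0 := by
    intro h
    have h5 := hKt t ht
    rw [h, mul_zero] at h5
    exact hμt0 (le_antisymm h5 (zero_le))
  exact ENNReal.div_mul_cancel hKt0 (measure_ne_top _ _)

end cell

end Pool.Agent.Lib_helper93.Mink
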