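import Pool.Agent.Lib_helper93.Mink.Defs

open MeasureTheory Set Filter Polynomial
open scoped Topology ENNReal

namespace Pool.Agent.Lib_helper93.Mink

/-- The general term. -/
noncomputable def term (x : ℝ) (k : ℕ) : ℝ := if gauss^[k] x = 0 then 0 else
    (-1) ^ k / 2 ^ (∑ i ∈ Finset.range (k + 1), digit x i)

theorem questionMark_eq (x : ℝ) : questionMark x = 2 * ∑' k, term x k := rfl

theorem gauss_zero : gauss 0 = 0 := by simp [gauss]

theorem gauss_mem {x : ℝ} : 0 ≤ gauss x ∧ gauss x < 1 := ⟨Int.fract_nonneg _, Int.fract_lt_one _⟩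

theorem gauss_iter_mem {x : ℝ} (hx : x ∈ Icc (0 : ℝ) 1) (k : ℕ) : gauss^[k] x ∈ Icc (0 : ℝ) 1 := by
  cases k with
  | zero => exact hx
  | succ k =>
    rw [Function.iterate_succ_apply']
    exact ⟨gauss_mem.1, gauss_mem.2.le⟩

theorem digit_pos {x : ℝ} (hx : x ∈ Icc (0 : ℝ) 1) (k : ℕ) (h : gauss^[k] x ≠ 0) :
    1 ≤ digit x k := by
  have h1 := gauss_iter_mem hx k
  have h2 : 0 < gauss^[k] x := lt_of_le_of_ne h1.1 (Ne.symm h)
  unfold digit
  rw [Nat.one_le_floor_iff]
  rw [le_div_iff₀ h2]
  linarith [h1.2]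

theorem gauss_iter_ne {x : ℝ} {k i : ℕ} (h : gauss^[k] x ≠ 0) (hi : i ≤ k) : gauss^[i] x ≠ 0 := by
  intro h0
  apply h
  obtain ⟨j, rfl⟩ := Nat.exists_eq_add_of_le hi
  rw [add_comm, Function.iterate_add_apply, h0]
  have : ∀ j, gauss^[j] 0 = 0 := by
    intro j
    induction j with
    | zero => rfl
    | succ j ih => rw [Function.iterate_succ_apply', ih, gauss_zero]
  exact this j

theorem term_bound {x : ℝ} (hx : x ∈ Icc (0 : ℝ) 1) (k : ℕ) : ‖term x k‖ ≤ (1 / 2) ^ (k + 1) := by
  unfold term
  split_ifs with h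
  · simp
  · have h1 : k + 1 ≤ ∑ i ∈ Finset.range (k + 1), digit x i := by
      have : ∑ i ∈ Finset.range (k + 1), 1 ≤ ∑ i ∈ Finset.range (k + 1), digit x i := by
        refine Finset.sum_le_sum fun i hi => digit_pos hx i (gauss_iter_ne h ?_)
        have := Finset.mem_range.1 hi
        omega
      simpa using this
    rw [norm_div, norm_pow, norm_neg, norm_one, one_pow, norm_pow, Real.norm_ofNat, one_div_pow]
    gcongr
    norm_num

theorem term_summable {x : ℝ} (hx : x ∈ Icc (0 : ℝ) 1) : Summable (term x) := by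
  refine Summable.of_norm_bounded (g := fun k => (1 / 2) ^ (k + 1)) ?_ (term_bound hx)
  exact (summable_nat_add_iff 1).2 (summable_geometric_of_lt_one (by norm_num) (by norm_num))

theorem term_succ (x : ℝ) (k : ℕ) (hx : x ≠ 0) :
    term x (k + 1) = -(1 / 2 ^ (digit x 0)) * term (gauss x) k := by
  unfold term
  rw [Function.iterate_succ_apply]
  split_ifs with h
  · simp
  · rw [Finset.sum_range_succ']
    have : ∀ i, digit x (i + 1) = digit (gauss x) i := by
      intro i
      unfold digit
      rw [Function.iterate_succ_apply]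
    simp only [this]
    rw [pow_succ (-1 : ℝ) k, pow_add (2 : ℝ)]
    field_simp

theorem questionMark_zero : questionMark 0 = 0 := by
  have : ∀ j, gauss^[j] 0 = 0 := by
    intro j
    induction j with
    | zero => rfl
    | succ j ih => rw [Function.iterate_succ_apply', ih, gauss_zero]
  unfold questionMark
  simp [this]

/-- The basic recursion. -/
theorem questionMark_rec {x : ℝ} (hx0 : 0 < x) (hx1 : x ≤ 1) :
    questionMark x = (2 - questionMark (gauss x)) / 2 ^ ⌊1 / x⌋₊ := by
  have hx : x ∈ Icc (0 : ℝ) 1 := ⟨hx0.le, hx1⟩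
  have hs := term_summable hx
  rw [questionMark_eq, questionMark_eq, hs.tsum_eq_zero_add]
  have h0 : term x 0 = 1 / 2 ^ (digit x 0) := by
    unfold term
    simp [hx0.ne']
  simp only [term_succ x _ hx0.ne', tsum_mul_left]
  rw [h0]
  have : digit x 0 = ⌊1 / x⌋₊ := rfl
  rw [this]
  field_simp
  ring

theorem questionMark_one : questionMark 1 = 1 := by
  rw [questionMark_rec one_pos le_rfl]
  simp [gauss, questionMark_zero]

/-- Left half: `q(x/(1+x)) = q(x)/2`. -/
theorem questionMark_left {x : ℝ} (hx : x ∈ Icc (0 : ℝ) 1) :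
    questionMark (x / (1 + x)) = questionMark x / 2 := by
  rcases hx.1.eq_or_lt with rfl | h0
  · simp [questionMark_zero]
  have h1 : 0 < x / (1 + x) := by positivity
  have h2 : x / (1 + x) ≤ 1 := by
    rw [div_le_one (by positivity)]
    linarith
  rw [questionMark_rec h1 h2, questionMark_rec h0 hx.2]
  have e : 1 / (x / (1 + x)) = 1 / x + 1 := by
    field_simp
  have e2 : gauss (x / (1 + x)) = gauss x := by
    unfold gauss
    rw [e]
    simp
  rw [e2, e, Nat.floor_add_one (by positivity), pow_succ]
  field_simp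

theorem questionMark_symm_aux {x : ℝ} (hx0 : 0 ≤ x) (hx1 : x ≤ 1 / 2) :
    questionMark (1 - x) = 1 - questionMark x := by
  rcases hx0.eq_or_lt with rfl | h0
  · simp [questionMark_zero, questionMark_one]
  rcases hx1.eq_or_lt with rfl | h1
  · have : questionMark (1 / 2) = 1 / 2 := by
      rw [questionMark_rec (by norm_num) (by norm_num)]
      have : gauss (1 / 2) = 0 := by
        unfold gauss
        norm_num
      rw [this, questionMark_zero]
      norm_num
    rw [show (1 : ℝ) - 1 / 2 = 1 / 2 by norm_num, this]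
    norm_num
  · have hu : x / (1 - x) ∈ Icc (0 : ℝ) 1 := by
      constructor
      · apply div_nonneg hx0
        linarith
      · rw [div_le_one (by linarith)]
        linarith
    have e : x = (x / (1 - x)) / (1 + x / (1 - x)) := by
      have : (1 - x) ≠ 0 := by linarith
      field_simp
      ring
    have hq : questionMark x = questionMark (x / (1 - x)) / 2 := by
      conv_lhs => rw [e]
      exact questionMark_left hu
    rw [questionMark_rec (by linarith) (by linarith)]
    have hfl : ⌊1 / (1 - x)⌋ = 1 := by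
      rw [Int.floor_eq_iff]
      constructor
      · push_cast
        rw [le_div_iff₀ (by linarith)]
        linarith
      · push_cast
        rw [div_lt_iff₀ (by linarith)]
        linarith
    have hg : gauss (1 - x) = x / (1 - x) := by
      unfold gauss Int.fract
      rw [hfl]
      have : (1 - x) ≠ 0 := by linarith
      push_cast
      field_simp
      ring
    have hfl2 : ⌊1 / (1 - x)⌋₊ = 1 := by
      rw [← Int.floor_toNat, hfl]
      rfl
    rw [hg, hq, hfl2]
    ring

/-- Symmetry `q(1-x) = 1 - q(x)`. -/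
theorem questionMark_symm {x : ℝ} (hx : x ∈ Icc (0 : ℝ) 1) :
    questionMark (1 - x) = 1 - questionMark x := by
  rcases le_total x (1 / 2) with h | h
  · exact questionMark_symm_aux hx.1 h
  · have := questionMark_symm_aux (x := 1 - x) (by linarith [hx.2]) (by linarith)
    rw [sub_sub_cancel] at this
    linarith

/-- Right half: `q(1/(2-x)) = (1+q(x))/2`. -/
theorem questionMark_right {x : ℝ} (hx : x ∈ Icc (0 : ℝ) 1) :
    questionMark (1 / (2 - x)) = (1 + questionMark x) / 2 := by
  have h1x : 1 - x ∈ Icc (0 : ℝ) 1 := ⟨by linarith [hx.2], by linarith [hx.1]⟩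
  have h2x : (2 - x) ≠ 0 := by linarith [hx.2]
  have e : 1 / (2 - x) = 1 - (1 - x) / (1 + (1 - x)) := by
    have : 1 + (1 - x) = 2 - x := by ring
    rw [this]
    field_simp
    ring
  have hm : (1 - x) / (1 + (1 - x)) ∈ Icc (0 : ℝ) 1 := by
    have : 0 < 1 + (1 - x) := by linarith [h1x.1]
    constructor
    · exact div_nonneg h1x.1 this.le
    · rw [div_le_one this]
      linarith
  rw [e, questionMark_symm hm, questionMark_left h1x, questionMark_symm hx]
  ring

end Pool.Agent.Lib_helper93.Mink
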